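import Mathlib

/-!
# Operators on the square-summable functions on a product

`R e` acts by `e` on the second variable and `L d` acts by `d` on the first variable.
-/

set_option autoImplicit false

open scoped ENNReal InnerProductSpace

noncomputable section

namespace Pool.Agent.Run7.h604.HK

/-- The square-summable functions on `X`. -/
abbrev L2 (X : Type) := lp (fun _ : X => ℂ) 2

open Classical in
/-- The basis vector of `x`. -/
def dl {X : Type} (x : X) : L2 X := lp.single 2 x (1 : ℂ)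

variable {X Y Z : Type}

theorem mem_two {f : X → ℂ} : Memℓp f 2 ↔ Summable fun x => ‖f x‖ ^ 2 := by
  rw [memℓp_gen_iff (by norm_num)]
  simp

theorem summable_sq (f : L2 X) : Summable fun x => ‖f x‖ ^ 2 := mem_two.1 (lp.memℓp f)

theorem norm_sq (f : L2 X) : ‖f‖ ^ 2 = ∑' x, ‖f x‖ ^ 2 := by
  have h := lp.norm_rpow_eq_tsum (p := 2) (by norm_num) f
  simpa using h

theorem dl_self (x : X) : dl x x = 1 := by
  classical
  simp [dl]

theorem dl_ne {x y : X} (h : y ≠ x) : dl x y = 0 := by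
  classical
  simp [dl, Pi.single_eq_of_ne h]

theorem inner_dl_left (x : X) (f : L2 X) : ⟪dl x, f⟫_ℂ = f x := by
  classical
  rw [dl, lp.inner_single_left]; simp

theorem inner_dl_right (x : X) (f : L2 X) : ⟪f, dl x⟫_ℂ = (starRingEnd ℂ) (f x) := by
  rw [← inner_conj_symm, inner_dl_left]

theorem norm_dl (x : X) : ‖dl x‖ = 1 := by
  classical
  rw [dl, lp.norm_single (by norm_num)]; simp

/-- Two continuous linear maps on `ℓ²(X)` are equal if they agree on the basis vectors. -/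
theorem clm_ext {E : Type*} [NormedAddCommGroup E] [NormedSpace ℂ E] {S T : L2 X →L[ℂ] E}
    (h : ∀ x, S (dl x) = T (dl x)) : S = T := by
  classical
  ext f
  have hf := lp.hasSum_single (p := 2) (by norm_num) f
  have e : ∀ i, lp.single 2 i (f i) = (f i) • dl i := by
    intro i
    rw [dl, ← lp.single_smul]; simp
  simp only [e] at hf
  have h1 := hf.mapL S
  have h2 := hf.mapL T
  have : (fun b => S (f b • dl b)) = fun b => T (f b • dl b) := by
    funext b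
    rw [map_smul, map_smul, h]
  rw [this] at h1
  exact h1.unique h2

/-! ### slices along an equivalence `σ : Z ≃ X × Y` -/

theorem summable_slice (σ : Z ≃ X × Y) (F : L2 Z) (x : X) :
    Summable fun y => ‖F (σ.symm (x, y))‖ ^ 2 := by
  have h : Summable fun p : X × Y => ‖F (σ.symm p)‖ ^ 2 :=
    (σ.symm.summable_iff (f := fun z => ‖F z‖ ^ 2)).2 (summable_sq F)
  exact h.prod_factor x

theorem mem_slice (σ : Z ≃ X × Y) (F : L2 Z) (x : X) :
    Memℓp (fun y => F (σ.symm (x, y))) 2 := mem_two.2 (summable_slice σ F x)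

/-- The restriction of `F` to the fibre over `x`. -/
def sl (σ : Z ≃ X × Y) (F : L2 Z) (x : X) : L2 Y :=
  ⟨fun y => F (σ.symm (x, y)), mem_slice σ F x⟩

@[simp] theorem sl_apply (σ : Z ≃ X × Y) (F : L2 Z) (x : X) (y : Y) :
    sl σ F x y = F (σ.symm (x, y)) := rfl

theorem hasSum_sl (σ : Z ≃ X × Y) (F : L2 Z) : HasSum (fun x => ‖sl σ F x‖ ^ 2) (‖F‖ ^ 2) := by
  have h : Summable fun p : X × Y => ‖F (σ.symm p)‖ ^ 2 :=
    (σ.symm.summable_iff (f := fun z => ‖F z‖ ^ 2)).2 (summable_sq F)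
  have h1 : HasSum (fun p : X × Y => ‖F (σ.symm p)‖ ^ 2) (‖F‖ ^ 2) := by
    rw [norm_sq, ← σ.symm.tsum_eq (fun z => ‖F z‖ ^ 2)]
    exact h.hasSum
  have h2 : ∀ x, HasSum (fun y => ‖F (σ.symm (x, y))‖ ^ 2) (‖sl σ F x‖ ^ 2) := by
    intro x
    rw [norm_sq]
    exact (summable_slice σ F x).hasSum
  exact h1.prod_fiberwise h2

theorem hasSum_inner_sl (σ : Z ≃ X × Y) (F F' : L2 Z) :
    HasSum (fun x => ⟪sl σ F x, sl σ F' x⟫_ℂ) ⟪F, F'⟫_ℂ := by
  have h : HasSum (fun p : X × Y => ⟪F (σ.symm p), F' (σ.symm p)⟫_ℂ) ⟪F, F'⟫_ℂ :=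
    (σ.symm.hasSum_iff (f := fun z => ⟪F z, F' z⟫_ℂ)).2 (lp.hasSum_inner F F')
  exact h.prod_fiberwise fun x => lp.hasSum_inner (sl σ F x) (sl σ F' x)

theorem memℓp_op (σ : Z ≃ X × Y) (e : L2 Y →L[ℂ] L2 Y) (F : L2 Z) :
    Summable (fun z => ‖e (sl σ F (σ z).1) (σ z).2‖ ^ 2) := by
  have key : Summable fun p : X × Y => ‖e (sl σ F p.1) p.2‖ ^ 2 := by
    rw [summable_prod_of_nonneg (fun p => by positivity)]
    refine ⟨fun x => summable_sq (e (sl σ F x)), ?_⟩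
    have : (fun x => ∑' y, ‖e (sl σ F x) y‖ ^ 2) = fun x => ‖e (sl σ F x)‖ ^ 2 := by
      funext x
      rw [norm_sq]
    rw [this]
    refine Summable.of_nonneg_of_le (fun x => by positivity) (fun x => ?_)
      ((hasSum_sl σ F).summable.mul_left (‖e‖ ^ 2))
    rw [← mul_pow]
    exact pow_le_pow_left₀ (norm_nonneg _) (e.le_opNorm _) 2
  exact (σ.summable_iff (f := fun p : X × Y => ‖e (sl σ F p.1) p.2‖ ^ 2)).2 key

theorem mem_op (σ : Z ≃ X × Y) (e : L2 Y →L[ℂ] L2 Y) (F : L2 Z) :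
    Memℓp (fun z => e (sl σ F (σ z).1) (σ z).2) 2 := mem_two.2 (memℓp_op σ e F)

/-- The operator `e` on the fibres. -/
def opf (σ : Z ≃ X × Y) (e : L2 Y →L[ℂ] L2 Y) (F : L2 Z) : L2 Z :=
  ⟨fun z => e (sl σ F (σ z).1) (σ z).2, mem_op σ e F⟩

theorem opf_apply (σ : Z ≃ X × Y) (e : L2 Y →L[ℂ] L2 Y) (F : L2 Z) (z : Z) :
    opf σ e F z = e (sl σ F (σ z).1) (σ z).2 := rfl

theorem sl_opf (σ : Z ≃ X × Y) (e : L2 Y →L[ℂ] L2 Y) (F : L2 Z) (x : X) :
    sl σ (opf σ e F) x = e (sl σ F x) := by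
  ext y
  rw [sl_apply, opf_apply]
  simp

theorem sl_add (σ : Z ≃ X × Y) (F F' : L2 Z) (x : X) :
    sl σ (F + F') x = sl σ F x + sl σ F' x := by
  ext y
  simp

theorem sl_smul (σ : Z ≃ X × Y) (c : ℂ) (F : L2 Z) (x : X) :
    sl σ (c • F) x = c • sl σ F x := by
  ext y
  simp

theorem norm_opf_le (σ : Z ≃ X × Y) (e : L2 Y →L[ℂ] L2 Y) (F : L2 Z) :
    ‖opf σ e F‖ ≤ ‖e‖ * ‖F‖ := by
  have h1 := hasSum_sl σ (opf σ e F)
  have h2 := (hasSum_sl σ F).mul_left (‖e‖ ^ 2)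
  have h3 : ‖opf σ e F‖ ^ 2 ≤ ‖e‖ ^ 2 * ‖F‖ ^ 2 := by
    refine hasSum_le (fun x => ?_) h1 h2
    rw [sl_opf, ← mul_pow]
    exact pow_le_pow_left₀ (norm_nonneg _) (e.le_opNorm _) 2
  rw [← mul_pow] at h3
  exact (sq_le_sq₀ (norm_nonneg _) (by positivity)).1 h3

theorem opf_add (σ : Z ≃ X × Y) (e : L2 Y →L[ℂ] L2 Y) (F F' : L2 Z) :
    opf σ e (F + F') = opf σ e F + opf σ e F' := by
  ext z
  rw [opf_apply, sl_add, map_add, lp.coeFn_add, lp.coeFn_add, Pi.add_apply, Pi.add_apply,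
    opf_apply, opf_apply]

theorem opf_smul (σ : Z ≃ X × Y) (e : L2 Y →L[ℂ] L2 Y) (c : ℂ) (F : L2 Z) :
    opf σ e (c • F) = (RingHom.id ℂ) c • opf σ e F := by
  ext z
  rw [opf_apply, sl_smul, map_smul, RingHom.id_apply, lp.coeFn_smul, lp.coeFn_smul,
    Pi.smul_apply, Pi.smul_apply, opf_apply]

/-- The operator `e` on the fibres. -/
def op (σ : Z ≃ X × Y) (e : L2 Y →L[ℂ] L2 Y) : L2 Z →L[ℂ] L2 Z :=
  LinearMap.mkContinuous
    { toFun := opf σ e
      map_add' := opf_add σ e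
      map_smul' := opf_smul σ e }
    ‖e‖ (norm_opf_le σ e)

theorem op_apply (σ : Z ≃ X × Y) (e : L2 Y →L[ℂ] L2 Y) (F : L2 Z) (z : Z) :
    op σ e F z = e (sl σ F (σ z).1) (σ z).2 := rfl

@[simp] theorem sl_op (σ : Z ≃ X × Y) (e : L2 Y →L[ℂ] L2 Y) (F : L2 Z) (x : X) :
    sl σ (op σ e F) x = e (sl σ F x) := sl_opf σ e F x

/-- Two functions are equal if all their slices are. -/
theorem ext_sl (σ : Z ≃ X × Y) {F F' : L2 Z} (h : ∀ x, sl σ F x = sl σ F' x) : F = F' := by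
  ext z
  have := congrArg (fun u : L2 Y => u (σ z).2) (h (σ z).1)
  simpa using this

theorem op_comp (σ : Z ≃ X × Y) (e e' : L2 Y →L[ℂ] L2 Y) (F : L2 Z) :
    op σ e (op σ e' F) = op σ (e.comp e') F := by
  apply ext_sl σ
  intro x
  simp

theorem op_adjoint (σ : Z ≃ X × Y) (e : L2 Y →L[ℂ] L2 Y) (F F' : L2 Z) :
    ⟪op σ e F, F'⟫_ℂ = ⟪F, op σ (ContinuousLinearMap.adjoint e) F'⟫_ℂ := by
  have h1 := hasSum_inner_sl σ (op σ e F) F'
  have h2 := hasSum_inner_sl σ F (op σ (ContinuousLinearMap.adjoint e) F')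
  have : (fun x => ⟪sl σ (op σ e F) x, sl σ F' x⟫_ℂ) =
      fun x => ⟪sl σ F x, sl σ (op σ (ContinuousLinearMap.adjoint e) F') x⟫_ℂ := by
    funext x
    rw [sl_op, sl_op, ContinuousLinearMap.adjoint_inner_right]
  rw [this] at h1
  exact h1.unique h2

theorem adjoint_op (σ : Z ≃ X × Y) (e : L2 Y →L[ℂ] L2 Y) :
    ContinuousLinearMap.adjoint (op σ e) = op σ (ContinuousLinearMap.adjoint e) := by
  symm
  rw [ContinuousLinearMap.eq_adjoint_iff]
  intro F F'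
  have := op_adjoint σ (ContinuousLinearMap.adjoint e) F F'
  rw [ContinuousLinearMap.adjoint_adjoint] at this
  exact this

/-! ### the two variables of a product -/

/-- `d` on the first variable. -/
def L (d : L2 X →L[ℂ] L2 X) : L2 (X × Y) →L[ℂ] L2 (X × Y) := op (Equiv.prodComm X Y) d

/-- `e` on the second variable. -/
def R (e : L2 Y →L[ℂ] L2 Y) : L2 (X × Y) →L[ℂ] L2 (X × Y) := op (Equiv.refl (X × Y)) e

/-- The slices in the first variable. -/
def s₁ (F : L2 (X × Y)) (y : Y) : L2 X := sl (Equiv.prodComm X Y) F y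

/-- The slices in the second variable. -/
def s₂ (F : L2 (X × Y)) (x : X) : L2 Y := sl (Equiv.refl (X × Y)) F x

@[simp] theorem s₁_apply (F : L2 (X × Y)) (y : Y) (x : X) : s₁ F y x = F (x, y) := rfl

@[simp] theorem s₂_apply (F : L2 (X × Y)) (x : X) (y : Y) : s₂ F x y = F (x, y) := rfl

/-- The tensor product of two square-summable functions. -/
def tens (u : L2 X) (v : L2 Y) : L2 (X × Y) :=
  ⟨fun p => u p.1 * v p.2, mem_two.2 (by
    have h := (summable_sq u).mul_of_nonneg (summable_sq v) (fun x => by positivity)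
      (fun y => by positivity)
    simpa [mul_pow] using h)⟩

@[simp] theorem tens_apply (u : L2 X) (v : L2 Y) (p : X × Y) : tens u v p = u p.1 * v p.2 := rfl

theorem s₁_tens (u : L2 X) (v : L2 Y) (y : Y) : s₁ (tens u v) y = v y • u := by
  ext x
  simp [mul_comm]

theorem s₂_tens (u : L2 X) (v : L2 Y) (x : X) : s₂ (tens u v) x = u x • v := by
  ext y
  simp

theorem s₁_L (d : L2 X →L[ℂ] L2 X) (F : L2 (X × Y)) (y : Y) : s₁ (L d F) y = d (s₁ F y) :=
  sl_op _ _ _ _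

theorem s₂_R (e : L2 Y →L[ℂ] L2 Y) (F : L2 (X × Y)) (x : X) : s₂ (R e F) x = e (s₂ F x) :=
  sl_op _ _ _ _

theorem ext₁ {F F' : L2 (X × Y)} (h : ∀ y, s₁ F y = s₁ F' y) : F = F' :=
  ext_sl (Equiv.prodComm X Y) h

theorem ext₂ {F F' : L2 (X × Y)} (h : ∀ x, s₂ F x = s₂ F' x) : F = F' :=
  ext_sl (Equiv.refl (X × Y)) h

theorem L_tens (d : L2 X →L[ℂ] L2 X) (u : L2 X) (v : L2 Y) : L d (tens u v) = tens (d u) v := by
  apply ext₁
  intro y
  rw [s₁_L, s₁_tens, s₁_tens, map_smul]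

theorem R_tens (e : L2 Y →L[ℂ] L2 Y) (u : L2 X) (v : L2 Y) : R e (tens u v) = tens u (e v) := by
  apply ext₂
  intro x
  rw [s₂_R, s₂_tens, s₂_tens, map_smul]

theorem dl_prod (x : X) (y : Y) : dl (x, y) = tens (dl x) (dl y) := by
  classical
  ext ⟨x', y'⟩
  rw [tens_apply]
  by_cases hx : x' = x
  · by_cases hy : y' = y
    · subst hx hy
      rw [dl_self, dl_self, dl_self, mul_one]
    · rw [dl_ne hy, mul_zero, dl_ne]
      simp [hy]
  · rw [dl_ne hx, zero_mul, dl_ne]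
    simp [hx]

theorem L_comp (d d' : L2 X →L[ℂ] L2 X) (F : L2 (X × Y)) : L d (L d' F) = L (d.comp d') F :=
  op_comp _ _ _ _

theorem R_comp (e e' : L2 Y →L[ℂ] L2 Y) (F : L2 (X × Y)) : R e (R e' F) = R (e.comp e') F :=
  op_comp _ _ _ _

theorem LR_comm (d : L2 X →L[ℂ] L2 X) (e : L2 Y →L[ℂ] L2 Y) (F : L2 (X × Y)) :
    L d (R e F) = R e (L d F) := by
  have : (L d).comp (R e) = (R e).comp (L (Y := Y) d) := by
    apply clm_ext
    rintro ⟨x, y⟩
    rw [ContinuousLinearMap.comp_apply, ContinuousLinearMap.comp_apply, dl_prod, R_tens, L_tens,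
      L_tens, R_tens]
  exact congrArg (fun T : L2 (X × Y) →L[ℂ] L2 (X × Y) => T F) this

theorem adjoint_L (d : L2 X →L[ℂ] L2 X) :
    ContinuousLinearMap.adjoint (L (Y := Y) d) = L (ContinuousLinearMap.adjoint d) :=
  adjoint_op _ _

theorem adjoint_R (e : L2 Y →L[ℂ] L2 Y) :
    ContinuousLinearMap.adjoint (R (X := X) e) = R (ContinuousLinearMap.adjoint e) :=
  adjoint_op _ _

theorem inner_tens_left (u : L2 X) (v : L2 Y) (F : L2 (X × Y)) :
    HasSum (fun x => (starRingEnd ℂ) (u x) * ⟪v, s₂ F x⟫_ℂ) ⟪tens u v, F⟫_ℂ := by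
  have h := hasSum_inner_sl (Equiv.refl (X × Y)) (tens u v) F
  have : (fun x => ⟪sl (Equiv.refl (X × Y)) (tens u v) x, sl (Equiv.refl (X × Y)) F x⟫_ℂ) =
      fun x => (starRingEnd ℂ) (u x) * ⟪v, s₂ F x⟫_ℂ := by
    funext x
    change ⟪s₂ (tens u v) x, s₂ F x⟫_ℂ = _
    rw [s₂_tens, inner_smul_left]
  rwa [this] at h

theorem inner_tens_left' (u : L2 X) (v : L2 Y) (F : L2 (X × Y)) :
    HasSum (fun y => (starRingEnd ℂ) (v y) * ⟪u, s₁ F y⟫_ℂ) ⟪tens u v, F⟫_ℂ := by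
  have h := hasSum_inner_sl (Equiv.prodComm X Y) (tens u v) F
  have : (fun y => ⟪sl (Equiv.prodComm X Y) (tens u v) y, sl (Equiv.prodComm X Y) F y⟫_ℂ) =
      fun y => (starRingEnd ℂ) (v y) * ⟪u, s₁ F y⟫_ℂ := by
    funext y
    change ⟪s₁ (tens u v) y, s₁ F y⟫_ℂ = _
    rw [s₁_tens, inner_smul_left]
  rwa [this] at h

theorem inner_tens (u u' : L2 X) (v v' : L2 Y) :
    ⟪tens u v, tens u' v'⟫_ℂ = ⟪u, u'⟫_ℂ * ⟪v, v'⟫_ℂ := by
  have h1 := inner_tens_left u v (tens u' v')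
  have h2 : HasSum (fun x => (starRingEnd ℂ) (u x) * ⟪v, s₂ (tens u' v') x⟫_ℂ)
      (⟪u, u'⟫_ℂ * ⟪v, v'⟫_ℂ) := by
    have h3 := (lp.hasSum_inner u u').mul_right ⟪v, v'⟫_ℂ
    have : (fun x => (starRingEnd ℂ) (u x) * ⟪v, s₂ (tens u' v') x⟫_ℂ) =
        fun x => ⟪u x, u' x⟫_ℂ * ⟪v, v'⟫_ℂ := by
      funext x
      rw [s₂_tens, inner_smul_right]
      simp only [RCLike.inner_apply]
      ring
    rw [this]
    exact h3
  exact h1.unique h2

theorem norm_tens (u : L2 X) (v : L2 Y) : ‖tens u v‖ = ‖u‖ * ‖v‖ := by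
  have h := inner_tens u u v v
  rw [inner_self_eq_norm_sq_to_K, inner_self_eq_norm_sq_to_K, inner_self_eq_norm_sq_to_K] at h
  have h' : ‖tens u v‖ ^ 2 = (‖u‖ * ‖v‖) ^ 2 := by
    rw [mul_pow]
    exact_mod_cast h
  exact (sq_eq_sq₀ (norm_nonneg _) (by positivity)).1 h'

end Pool.Agent.Run7.h604.HK
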