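import Mathlib

/-!
# The coefficients of the powers of a polynomial with nonnegative coefficients
-/

set_option autoImplicit false

open Polynomial

noncomputable section

namespace Pool.Agent.Run7.h604.HK

/-- All coefficients are nonnegative. -/
def NN (P : ℝ[X]) : Prop := ∀ k, 0 ≤ P.coeff k

theorem NN.mul {P Q : ℝ[X]} (hP : NN P) (hQ : NN Q) : NN (P * Q) := by
  intro k
  rw [coeff_mul]
  exact Finset.sum_nonneg fun x _ => mul_nonneg (hP _) (hQ _)

theorem NN.one : NN (1 : ℝ[X]) := by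
  intro k
  rw [coeff_one]
  split_ifs <;> norm_num

theorem NN.pow {P : ℝ[X]} (hP : NN P) (n : ℕ) : NN (P ^ n) := by
  induction n with
  | zero => rw [pow_zero]; exact NN.one
  | succ n ih => rw [pow_succ]; exact ih.mul hP

theorem NN.sum_le {P : ℝ[X]} (hP : NN P) (s : Finset ℕ) : ∑ k ∈ s, P.coeff k ≤ P.eval 1 := by
  rw [eval_eq_sum, Polynomial.sum]
  simp only [one_pow, mul_one]
  calc ∑ k ∈ s, P.coeff k = ∑ k ∈ s with P.coeff k ≠ 0, P.coeff k := by
        rw [Finset.sum_filter_ne_zero]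
    _ ≤ ∑ k ∈ P.support, P.coeff k := by
        refine Finset.sum_le_sum_of_subset_of_nonneg ?_ fun k _ _ => hP k
        intro k hk
        rw [Finset.mem_filter] at hk
        exact mem_support_iff.2 hk.2

theorem NN.eval_nonneg {P : ℝ[X]} (hP : NN P) : 0 ≤ P.eval 1 := by
  simpa using hP.sum_le ∅

theorem NN.coeff_le {P : ℝ[X]} (hP : NN P) (k : ℕ) : P.coeff k ≤ P.eval 1 := by
  simpa using hP.sum_le {k}

theorem coeff_mul_le {U V : ℝ[X]} {M : ℝ} (hU : ∀ k, U.coeff k ≤ M) (hM : 0 ≤ M) (hV : NN V)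
    (k : ℕ) : (U * V).coeff k ≤ M * V.eval 1 := by
  rw [coeff_mul]
  calc ∑ x ∈ Finset.HasAntidiagonal.antidiagonal k, U.coeff x.1 * V.coeff x.2
      ≤ ∑ x ∈ Finset.HasAntidiagonal.antidiagonal k, M * V.coeff x.2 :=
        Finset.sum_le_sum fun x _ => mul_le_mul_of_nonneg_right (hU _) (hV _)
    _ = M * ∑ x ∈ Finset.HasAntidiagonal.antidiagonal k, V.coeff x.2 := by rw [Finset.mul_sum]
    _ = M * ∑ j ∈ Finset.range (k + 1), V.coeff j := by
        rw [Finset.Nat.sum_antidiagonal_eq_sum_range_succ (f := fun _ j => V.coeff j)]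
        congr 1
        exact Finset.sum_range_reflect (fun j => V.coeff j) (k + 1)
    _ ≤ M * V.eval 1 := mul_le_mul_of_nonneg_left (hV.sum_le _) hM

theorem central_sq (n : ℕ) : n.centralBinom ^ 2 * (3 * n + 1) ≤ 16 ^ n := by
  induction n with
  | zero => simp
  | succ n ih =>
    have h := Nat.succ_mul_centralBinom_succ n
    have h2 : (n + 1) ^ 2 * ((n + 1).centralBinom ^ 2 * (3 * (n + 1) + 1)) ≤
        (n + 1) ^ 2 * 16 ^ (n + 1) := by
      calc (n + 1) ^ 2 * ((n + 1).centralBinom ^ 2 * (3 * (n + 1) + 1))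
          = ((n + 1) * (n + 1).centralBinom) ^ 2 * (3 * n + 4) := by ring
        _ = (2 * (2 * n + 1) * n.centralBinom) ^ 2 * (3 * n + 4) := by rw [h]
        _ = n.centralBinom ^ 2 * (4 * (2 * n + 1) ^ 2 * (3 * n + 4)) := by ring
        _ ≤ n.centralBinom ^ 2 * (16 * (n + 1) ^ 2 * (3 * n + 1)) := by
            refine Nat.mul_le_mul_left _ ?_
            nlinarith
        _ = 16 * (n + 1) ^ 2 * (n.centralBinom ^ 2 * (3 * n + 1)) := by ring
        _ ≤ 16 * (n + 1) ^ 2 * 16 ^ n := Nat.mul_le_mul_left _ ih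
        _ = (n + 1) ^ 2 * 16 ^ (n + 1) := by ring
    exact Nat.le_of_mul_le_mul_left h2 (by positivity)

theorem choose_half_sq (s : ℕ) : s.choose (s / 2) ^ 2 * (s + 1) ≤ 4 ^ s := by
  rcases Nat.even_or_odd' s with ⟨n, rfl | rfl⟩
  · have h := central_sq n
    have e : 2 * n / 2 = n := by omega
    rw [e, ← Nat.centralBinom_eq_two_mul_choose, pow_mul]
    norm_num
    refine le_trans (Nat.mul_le_mul_left _ ?_) h
    omega
  · have h := central_sq (n + 1)
    have e : (2 * n + 1) / 2 = n := by omega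
    have h2 : (n + 1).centralBinom = 2 * (2 * n + 1).choose n := by
      rw [Nat.centralBinom_eq_two_mul_choose]
      have e1 : 2 * (n + 1) = (2 * n + 1) + 1 := by ring
      have e2 : (2 * n + 1).choose (n + 1) = (2 * n + 1).choose n := by
        rw [← Nat.choose_symm_of_eq_add (show 2 * n + 1 = n + (n + 1) by ring)]
      rw [e1, Nat.choose_succ_succ, Nat.succ_eq_add_one, e2]
      ring
    rw [e]
    rw [h2] at h
    have e3 : (4 : ℕ) ^ (2 * n + 1) = 4 * 16 ^ n := by
      rw [pow_succ, pow_mul]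
      norm_num
      ring
    rw [e3]
    rw [pow_succ 16 n] at h
    have : 4 * ((2 * n + 1).choose n ^ 2 * (2 * n + 1 + 1)) ≤ 4 * (4 * 16 ^ n) := by
      calc 4 * ((2 * n + 1).choose n ^ 2 * (2 * n + 1 + 1))
          = (2 * (2 * n + 1).choose n) ^ 2 * (2 * n + 2) := by ring
        _ ≤ (2 * (2 * n + 1).choose n) ^ 2 * (3 * (n + 1) + 1) :=
            Nat.mul_le_mul_left _ (by omega)
        _ ≤ 16 ^ n * 16 := h
        _ = 4 * (4 * 16 ^ n) := by ring
    omega

theorem coeff_two (i j s k : ℕ) (hij : i ≠ j) :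
    ((X ^ i + X ^ j : ℝ[X]) ^ s).coeff k ≤ s.choose (s / 2) := by
  rw [add_pow, finsetSum_coeff]
  have e : ∀ m ∈ Finset.range (s + 1),
      ((X ^ i : ℝ[X]) ^ m * (X ^ j) ^ (s - m) * (s.choose m : ℝ[X])).coeff k =
        if k = i * m + j * (s - m) then (s.choose m : ℝ) else 0 := by
    intro m _
    rw [← pow_mul, ← pow_mul, ← pow_add, ← Polynomial.C_eq_natCast, coeff_mul_C, coeff_X_pow]
    split_ifs <;> simp
  rw [Finset.sum_congr rfl e, ← Finset.sum_filter]
  set T := Finset.filter (fun m => k = i * m + j * (s - m)) (Finset.range (s + 1)) with hT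
  have hc : T.card ≤ 1 := by
    rw [Finset.card_le_one]
    intro a ha b hb
    rw [hT, Finset.mem_filter, Finset.mem_range] at ha hb
    have h := ha.2.symm.trans hb.2
    obtain ⟨u, hu⟩ := Nat.exists_eq_add_of_le (show a ≤ s by omega)
    obtain ⟨v, hv⟩ := Nat.exists_eq_add_of_le (show b ≤ s by omega)
    have hu' : s - a = u := by omega
    have hv' : s - b = v := by omega
    rw [hu', hv'] at h
    have huv : (a : ℤ) + u = b + v := by
      have : a + u = b + v := by omega
      exact_mod_cast this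
    have h' : (i : ℤ) * a + j * u = i * b + j * v := by exact_mod_cast h
    have h3 : ((i : ℤ) - j) * (a - b) = 0 := by
      have : (u : ℤ) = b + v - a := by linarith
      rw [this] at h'
      linarith
    rcases mul_eq_zero.1 h3 with h4 | h4
    · exact absurd (by exact_mod_cast (sub_eq_zero.1 h4)) hij
    · exact_mod_cast (sub_eq_zero.1 h4)
  calc ∑ m ∈ T, (s.choose m : ℝ) ≤ ∑ m ∈ T, (s.choose (s / 2) : ℝ) :=
        Finset.sum_le_sum fun m _ => by exact_mod_cast Nat.choose_le_middle m s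
    _ = T.card * (s.choose (s / 2) : ℝ) := by rw [Finset.sum_const, nsmul_eq_mul]
    _ ≤ 1 * (s.choose (s / 2) : ℝ) := by
        refine mul_le_mul_of_nonneg_right ?_ (by positivity)
        exact_mod_cast hc
    _ = _ := one_mul _

/-- The coefficients of the `r`-th power of a polynomial with nonnegative coefficients, two of them
at least `a > 0`, are `O(r ^ (-1/2))` times its value at one. -/
theorem conc {P : ℝ[X]} (hP : NN P) {i j : ℕ} (hij : i ≠ j) {a : ℝ} (ha : 0 < a)
    (hi : a ≤ P.coeff i) (hj : a ≤ P.coeff j) (r k : ℕ) :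
    (P ^ r).coeff k ^ 2 * (2 * a * (r + 1)) ≤ P.eval 1 ^ (2 * r + 1) := by
  set U : ℝ[X] := X ^ i + X ^ j with hU
  set Q : ℝ[X] := P - C a * U with hQ
  have hPQ : P = C a * U + Q := by rw [hQ]; ring
  have hQN : NN Q := by
    intro l
    rw [hQ, coeff_sub, coeff_C_mul, hU, coeff_add, coeff_X_pow, coeff_X_pow]
    by_cases h1 : l = i
    · subst h1
      rw [if_pos rfl, if_neg hij]
      linarith
    · by_cases h2 : l = j
      · subst h2
        rw [if_pos rfl, if_neg h1]
        linarith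
      · rw [if_neg h1, if_neg h2]
        have := hP l
        linarith
  set q : ℝ := Q.eval 1 with hq
  have hq0 : 0 ≤ q := hQN.eval_nonneg
  have hF : P.eval 1 = 2 * a + q := by
    rw [hPQ, eval_add, eval_mul, eval_C, hU, eval_add, eval_pow, eval_pow, eval_X, ← hq]
    ring
  -- the bound by a sum
  have h1 : (P ^ r).coeff k ≤ ∑ s ∈ Finset.range (r + 1),
      (r.choose s : ℝ) * (2 * a) ^ s * q ^ (r - s) * ((s.choose (s / 2) : ℝ) / 2 ^ s) := by
    conv_lhs => rw [hPQ]
    rw [add_pow, finsetSum_coeff]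
    refine Finset.sum_le_sum fun s _ => ?_
    have e : (C a * U) ^ s * Q ^ (r - s) * (r.choose s : ℝ[X]) =
        C (a ^ s * r.choose s) * (U ^ s * Q ^ (r - s)) := by
      rw [mul_pow, C_mul, C_pow, ← C_eq_natCast]
      ring
    rw [e, coeff_C_mul]
    have h2 := coeff_mul_le (fun l => coeff_two i j s l hij) (by positivity) (hQN.pow (r - s)) k
    rw [eval_pow, ← hq] at h2
    calc a ^ s * (r.choose s : ℝ) * (U ^ s * Q ^ (r - s)).coeff k
        ≤ a ^ s * (r.choose s : ℝ) * ((s.choose (s / 2) : ℝ) * q ^ (r - s)) :=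
          mul_le_mul_of_nonneg_left h2 (by positivity)
      _ = _ := by
          rw [mul_pow]
          field_simp
  set w : ℕ → ℝ := fun s => (r.choose s : ℝ) * (2 * a) ^ s * q ^ (r - s) with hw
  set y : ℕ → ℝ := fun s => (s.choose (s / 2) : ℝ) / 2 ^ s with hy
  have hw0 : ∀ s, 0 ≤ w s := fun s => by positivity
  have hy0 : ∀ s, 0 ≤ y s := fun s => by positivity
  have hy2 : ∀ s, y s ^ 2 ≤ 1 / ((s : ℝ) + 1) := by
    intro s
    rw [hy]
    simp only
    rw [div_pow, div_le_div_iff₀ (by positivity) (by positivity), one_mul, ← pow_mul, mul_comm s 2,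
      pow_mul]
    have := choose_half_sq s
    have h3 : ((s.choose (s / 2) : ℝ)) ^ 2 * ((s : ℝ) + 1) ≤ 4 ^ s := by exact_mod_cast this
    norm_num
    exact h3
  have h2 : ∑ s ∈ Finset.range (r + 1), w s = P.eval 1 ^ r := by
    rw [hF, add_pow]
    refine Finset.sum_congr rfl fun s _ => ?_
    rw [hw]
    ring
  have h3 : (∑ s ∈ Finset.range (r + 1), w s * y s ^ 2) * (2 * a * (r + 1)) ≤
      P.eval 1 ^ (r + 1) := by
    calc (∑ s ∈ Finset.range (r + 1), w s * y s ^ 2) * (2 * a * (r + 1))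
        ≤ (∑ s ∈ Finset.range (r + 1), w s * (1 / ((s : ℝ) + 1))) * (2 * a * (r + 1)) := by
          refine mul_le_mul_of_nonneg_right (Finset.sum_le_sum fun s _ => ?_) (by positivity)
          exact mul_le_mul_of_nonneg_left (hy2 s) (hw0 s)
      _ = ∑ s ∈ Finset.range (r + 1),
            ((r + 1).choose (s + 1) : ℝ) * (2 * a) ^ (s + 1) * q ^ (r - s) := by
          rw [Finset.sum_mul]
          refine Finset.sum_congr rfl fun s _ => ?_
          have e : ((r : ℝ) + 1) * (r.choose s : ℝ) = ((r + 1).choose (s + 1) : ℝ) * (s + 1) := by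
            exact_mod_cast Nat.add_one_mul_choose_eq r s
          rw [hw]
          simp only
          have hs : ((s : ℝ) + 1) ≠ 0 := by positivity
          field_simp
          linear_combination ((2 * a) ^ (s + 1) * q ^ (r - s)) * e
      _ ≤ P.eval 1 ^ (r + 1) := by
          rw [hF, add_pow, Finset.sum_range_succ' _ (r + 1)]
          have hz : 0 ≤ (2 * a) ^ 0 * q ^ (r + 1 - 0) * ((r + 1).choose 0 : ℝ) := by positivity
          refine le_trans ?_ (le_add_of_nonneg_right hz)
          refine Finset.sum_le_sum fun s _ => ?_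
          rw [Nat.add_sub_add_right]
          apply le_of_eq
          ring
  have h4 : (∑ s ∈ Finset.range (r + 1), w s * y s) ^ 2 ≤
      (∑ s ∈ Finset.range (r + 1), w s) * ∑ s ∈ Finset.range (r + 1), w s * y s ^ 2 := by
    refine Finset.sum_sq_le_sum_mul_sum_of_sq_le_mul _ (fun s _ => hw0 s)
      (fun s _ => mul_nonneg (hw0 s) (sq_nonneg _)) (fun s _ => le_of_eq ?_)
    ring
  have h5 : (P ^ r).coeff k ^ 2 ≤ (∑ s ∈ Finset.range (r + 1), w s * y s) ^ 2 :=
    pow_le_pow_left₀ ((hP.pow r) k) h1 2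
  calc (P ^ r).coeff k ^ 2 * (2 * a * (r + 1))
      ≤ ((∑ s ∈ Finset.range (r + 1), w s) * ∑ s ∈ Finset.range (r + 1), w s * y s ^ 2) *
          (2 * a * (r + 1)) := mul_le_mul_of_nonneg_right (h5.trans h4) (by positivity)
    _ = P.eval 1 ^ r * ((∑ s ∈ Finset.range (r + 1), w s * y s ^ 2) * (2 * a * (r + 1))) := by
        rw [h2]
        ring
    _ ≤ P.eval 1 ^ r * P.eval 1 ^ (r + 1) :=
        mul_le_mul_of_nonneg_left h3 (pow_nonneg hP.eval_nonneg r)
    _ = P.eval 1 ^ (2 * r + 1) := by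
        rw [← pow_add]
        congr 1
        ring

end Pool.Agent.Run7.h604.HK
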