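import Pool.Agent.Run7.h604.HK.Tens
import Pool.Agent.W657.TG.Lp

/-!
# Cocompact complexes with finite stabilizers, their products and the Künneth formula
-/

set_option autoImplicit false

open scoped ENNReal InnerProductSpace
open ContinuousLinearMap (adjoint)

noncomputable section

namespace Pool.Agent.Run7.h604.HK

/-- A cocompact complex with finite stabilizers. The group `G` acts on the set `X` of the cells, with
finite stabilizers; `deg` is the dimension of a cell, at most `dim`; `cells` is a finite set with one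
cell of each orbit; `inc x y` is the incidence number of the cell `x` and the cell `y` of dimension
one less; each cell `x` has finitely many faces, `fac x`, and cofaces, `cof x`; and the square of the
boundary operator is zero. -/
structure Cplx where
  G : Type
  X : Type
  [grp : Group G]
  [act : MulAction G X]
  dim : ℕ
  deg : X → ℕ
  deg_le : ∀ x, deg x ≤ dim
  deg_smul : ∀ (g : G) (x : X), deg (g • x) = deg x
  cells : Finset X
  cover : ∀ x, ∃ g : G, g • x ∈ cells
  unique : ∀ x ∈ cells, ∀ g : G, g • x ∈ cells → g • x = x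
  stab : ∀ x : X, Finite (MulAction.stabilizer G x)
  inc : X → X → ℤ
  inc_smul : ∀ (g : G) (x y : X), inc (g • x) (g • y) = inc x y
  inc_deg : ∀ x y, inc x y ≠ 0 → deg x = deg y + 1
  fac : X → Finset X
  mem_fac : ∀ x y, y ∈ fac x ↔ inc x y ≠ 0
  cof : X → Finset X
  mem_cof : ∀ x y, x ∈ cof y ↔ inc x y ≠ 0
  inc_inc : ∀ x z, ∑ y ∈ fac x, inc x y * inc y z = 0

attribute [instance] Cplx.grp Cplx.act

namespace Cplx

/-- The square-summable harmonic chains `f`: the boundary and the coboundary of `f` are zero. They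
represent the reduced `L²`-homology. -/
def harm (A : Cplx) : Set (L2 A.X) :=
  {f | (∀ y, ∑ x ∈ A.cof y, (A.inc x y : ℂ) * f x = 0) ∧
    ∀ x, ∑ y ∈ A.fac x, (A.inc x y : ℂ) * f y = 0}

/-- The order of the stabilizer of a cell. -/
def ord (A : Cplx) (x : A.X) : ℝ := Nat.card (MulAction.stabilizer A.G x)

/-- The `k`-th `L²`-Betti number: the von Neumann dimension of the space of harmonic `k`-chains, that
is, the sum over the orbits of `k`-cells `x` of one minus the squared distance of the basis vector of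
`x` to this space, divided by the order of the stabilizer of `x`. -/
def betti (A : Cplx) (k : ℕ) : ℝ :=
  ∑ x ∈ A.cells with A.deg x = k, (1 - Metric.infDist (dl x) A.harm ^ 2) / A.ord x

/-- The sum of all `L²`-Betti numbers. -/
def total (A : Cplx) : ℝ := ∑ k ∈ Finset.range (A.dim + 1), A.betti k

/-- The (orbifold) Euler characteristic. -/
def euler (A : Cplx) : ℝ := ∑ x ∈ A.cells, (-1) ^ A.deg x / A.ord x

/-- The number of orbits of cells, each counted with the weight `1 / |stabilizer|`. -/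
def mass (A : Cplx) : ℝ := ∑ x ∈ A.cells, 1 / A.ord x

/-! ### products -/

/-- The action of `G × H` on the product of two sets. -/
instance prodSMul (A B : Cplx) : SMul (A.G × B.G) (A.X × B.X) := ⟨fun g p => (g.1 • p.1, g.2 • p.2)⟩

theorem prod_one_smul (A B : Cplx) (p : A.X × B.X) : (1 : A.G × B.G) • p = p := by
  change ((1 : A.G) • p.1, (1 : B.G) • p.2) = p
  simp

theorem prod_mul_smul (A B : Cplx) (g h : A.G × B.G) (p : A.X × B.X) :
    (g * h) • p = g • (h • p) := by
  change ((g.1 * h.1) • p.1, (g.2 * h.2) • p.2) = (g.1 • (h.1 • p.1), g.2 • (h.2 • p.2))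
  simp [mul_smul]

/-- The action of `G × H` on the product of two sets. -/
@[instance_reducible] def prodAct (A B : Cplx) : MulAction (A.G × B.G) (A.X × B.X) where
  one_smul := prod_one_smul A B
  mul_smul := prod_mul_smul A B

open Classical in
/-- The incidence numbers of a product: `d (x × y) = (d x) × y + (-1) ^ deg x • x × (d y)`. -/
def pinc (A B : Cplx) (p q : A.X × B.X) : ℤ :=
  (if p.2 = q.2 then A.inc p.1 q.1 else 0) +
    if p.1 = q.1 then (-1) ^ A.deg p.1 * B.inc p.2 q.2 else 0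

open Classical in
/-- The faces of a cell of a product. -/
def pfac (A B : Cplx) (p : A.X × B.X) : Finset (A.X × B.X) :=
  A.fac p.1 ×ˢ {p.2} ∪ {p.1} ×ˢ B.fac p.2

open Classical in
/-- The cofaces of a cell of a product. -/
def pcof (A B : Cplx) (p : A.X × B.X) : Finset (A.X × B.X) :=
  A.cof p.1 ×ˢ {p.2} ∪ {p.1} ×ˢ B.cof p.2

theorem inc_self (A : Cplx) (x : A.X) : A.inc x x = 0 := by
  by_contra h
  have := A.inc_deg x x h
  omega

theorem pinc_ne (A B : Cplx) (p q : A.X × B.X) : pinc A B p q ≠ 0 ↔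
    (p.2 = q.2 ∧ A.inc p.1 q.1 ≠ 0) ∨ (p.1 = q.1 ∧ B.inc p.2 q.2 ≠ 0) := by
  obtain ⟨x, y⟩ := p
  obtain ⟨u, v⟩ := q
  simp only [pinc]
  by_cases h1 : y = v
  · subst h1
    by_cases h2 : x = u
    · subst h2
      simp [inc_self]
    · simp [h2, inc_self]
  · by_cases h2 : x = u
    · subst h2
      simp [h1]
    · simp [h1, h2]

theorem mem_pfac (A B : Cplx) (p q : A.X × B.X) : q ∈ pfac A B p ↔ pinc A B p q ≠ 0 := by
  classical
  rw [pinc_ne, pfac, Finset.mem_union, Finset.mem_product, Finset.mem_product, Finset.mem_singleton,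
    Finset.mem_singleton, mem_fac, mem_fac]
  constructor
  · rintro (⟨h1, h2⟩ | ⟨h1, h2⟩)
    · exact Or.inl ⟨h2.symm, h1⟩
    · exact Or.inr ⟨h1.symm, h2⟩
  · rintro (⟨h1, h2⟩ | ⟨h1, h2⟩)
    · exact Or.inl ⟨h2, h1.symm⟩
    · exact Or.inr ⟨h1.symm, h2⟩

theorem mem_pcof (A B : Cplx) (p q : A.X × B.X) : p ∈ pcof A B q ↔ pinc A B p q ≠ 0 := by
  classical
  rw [pinc_ne, pcof, Finset.mem_union, Finset.mem_product, Finset.mem_product, Finset.mem_singleton,
    Finset.mem_singleton, mem_cof, mem_cof]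
  constructor
  · rintro (⟨h1, h2⟩ | ⟨h1, h2⟩)
    · exact Or.inl ⟨h2, h1⟩
    · exact Or.inr ⟨h1, h2⟩
  · rintro (⟨h1, h2⟩ | ⟨h1, h2⟩)
    · exact Or.inl ⟨h2, h1⟩
    · exact Or.inr ⟨h1, h2⟩

theorem prod_deg_le (A B : Cplx) (p : A.X × B.X) :
    A.deg p.1 + B.deg p.2 ≤ A.dim + B.dim := add_le_add (A.deg_le p.1) (B.deg_le p.2)

theorem prod_deg_smul (A B : Cplx) (g : A.G × B.G) (p : A.X × B.X) :
    A.deg (g • p).1 + B.deg (g • p).2 = A.deg p.1 + B.deg p.2 := by
  change A.deg (g.1 • p.1) + B.deg (g.2 • p.2) = _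
  rw [A.deg_smul, B.deg_smul]

theorem prod_cover (A B : Cplx) (p : A.X × B.X) :
    ∃ g : A.G × B.G, g • p ∈ A.cells ×ˢ B.cells := by
  obtain ⟨g, hg⟩ := A.cover p.1
  obtain ⟨h, hh⟩ := B.cover p.2
  exact ⟨(g, h), Finset.mem_product.2 ⟨hg, hh⟩⟩

theorem prod_unique (A B : Cplx) (p : A.X × B.X) (hp : p ∈ A.cells ×ˢ B.cells) (g : A.G × B.G)
    (hg : g • p ∈ A.cells ×ˢ B.cells) : g • p = p := by
  rw [Finset.mem_product] at hp hg
  exact Prod.ext (A.unique p.1 hp.1 g.1 hg.1) (B.unique p.2 hp.2 g.2 hg.2)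

theorem prod_stab (A B : Cplx) (p : A.X × B.X) :
    letI := prodAct A B
    Finite (MulAction.stabilizer (A.G × B.G) p) := by
  letI := prodAct A B
  have h1 := A.stab p.1
  have h2 := B.stab p.2
  refine Finite.of_injective (β := MulAction.stabilizer A.G p.1 × MulAction.stabilizer B.G p.2)
    (fun g => (⟨g.1.1, ?_⟩, ⟨g.1.2, ?_⟩)) ?_
  · exact congrArg Prod.fst g.2
  · exact congrArg Prod.snd g.2
  · intro g h hgh
    rw [Prod.mk.injEq, Subtype.mk.injEq, Subtype.mk.injEq] at hgh
    exact Subtype.ext (Prod.ext hgh.1 hgh.2)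

theorem prod_inc_smul (A B : Cplx) (g : A.G × B.G) (p q : A.X × B.X) :
    pinc A B (g • p) (g • q) = pinc A B p q := by
  obtain ⟨x, y⟩ := p
  obtain ⟨u, v⟩ := q
  change pinc A B (g.1 • x, g.2 • y) (g.1 • u, g.2 • v) = _
  classical
  have h1 : (g.2 • y = g.2 • v) ↔ y = v := smul_left_cancel_iff g.2
  have h2 : (g.1 • x = g.1 • u) ↔ x = u := smul_left_cancel_iff g.1
  unfold pinc
  by_cases hy : y = v
  · subst hy
    by_cases hx : x = u
    · subst hx
      simp [A.inc_smul, B.inc_smul, A.deg_smul]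
    · have hx' : ¬ (g.1 • x = g.1 • u) := fun h => hx (h2.1 h)
      simp [A.inc_smul, hx, hx']
  · have hy' : ¬ (g.2 • y = g.2 • v) := fun h => hy (h1.1 h)
    by_cases hx : x = u
    · subst hx
      simp [B.inc_smul, A.deg_smul, hy, hy']
    · have hx' : ¬ (g.1 • x = g.1 • u) := fun h => hx (h2.1 h)
      simp [hx, hx', hy, hy']

theorem prod_inc_deg (A B : Cplx) (p q : A.X × B.X) (h : pinc A B p q ≠ 0) :
    A.deg p.1 + B.deg p.2 = A.deg q.1 + B.deg q.2 + 1 := by
  rw [pinc_ne] at h
  rcases h with ⟨h1, h2⟩ | ⟨h1, h2⟩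
  · have := A.inc_deg _ _ h2
    rw [h1]
    omega
  · have := B.inc_deg _ _ h2
    rw [h1]
    omega

theorem sum_pfac (A B : Cplx) (x : A.X) (y : B.X) (F : A.X × B.X → ℤ) :
    ∑ q ∈ pfac A B (x, y), pinc A B (x, y) q * F q =
      ∑ x' ∈ A.fac x, A.inc x x' * F (x', y) +
        ∑ y' ∈ B.fac y, (-1) ^ A.deg x * B.inc y y' * F (x, y') := by
  classical
  have hdisj : Disjoint (A.fac x ×ˢ ({y} : Finset B.X)) (({x} : Finset A.X) ×ˢ B.fac y) := by
    rw [Finset.disjoint_left]
    rintro ⟨a, b⟩ h1 h2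
    rw [Finset.mem_product, Finset.mem_singleton] at h1 h2
    have h3 : a = x := h2.1
    have h4 := (A.mem_fac x a).1 h1.1
    rw [h3, inc_self] at h4
    exact h4 rfl
  have e : pfac A B (x, y) = A.fac x ×ˢ ({y} : Finset B.X) ∪ ({x} : Finset A.X) ×ˢ B.fac y := by
    rw [pfac]
  rw [e, Finset.sum_union hdisj, Finset.sum_product, Finset.sum_product, Finset.sum_singleton]
  congr 1
  · refine Finset.sum_congr rfl fun a ha => ?_
    rw [Finset.sum_singleton]
    have hne : x ≠ a := by
      rintro rfl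
      exact ((A.mem_fac x x).1 ha) (inc_self A x)
    simp [pinc, hne]
  · refine Finset.sum_congr rfl fun b hb => ?_
    have hne : y ≠ b := by
      rintro rfl
      exact ((B.mem_fac y y).1 hb) (inc_self B y)
    simp [pinc, hne]

theorem sum_fac_ite (A : Cplx) (x u : A.X) (c : ℤ) [DecidableEq A.X] :
    ∑ x' ∈ A.fac x, A.inc x x' * (if x' = u then c else 0) = A.inc x u * c := by
  by_cases h : u ∈ A.fac x
  · rw [Finset.sum_eq_single u]
    · rw [if_pos rfl]
    · intro b _ hb
      rw [if_neg hb, mul_zero]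
    · intro h'
      exact absurd h h'
  · have h0 : A.inc x u = 0 := by
      by_contra h0
      exact h ((A.mem_fac x u).2 h0)
    rw [h0, zero_mul]
    refine Finset.sum_eq_zero fun b hb => ?_
    have : b ≠ u := by
      rintro rfl
      exact h hb
    rw [if_neg this, mul_zero]

theorem prod_inc_inc (A B : Cplx) (p r : A.X × B.X) :
    ∑ q ∈ pfac A B p, pinc A B p q * pinc A B q r = 0 := by
  classical
  obtain ⟨x, y⟩ := p
  obtain ⟨u, v⟩ := r
  rw [sum_pfac]
  have e1 : ∑ x' ∈ A.fac x, A.inc x x' * pinc A B (x', y) (u, v) =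
      A.inc x u * ((-1) ^ A.deg u * B.inc y v) := by
    have h1 : ∑ x' ∈ A.fac x, A.inc x x' * (if y = v then A.inc x' u else 0) = 0 := by
      by_cases h : y = v
      · simp only [h, if_true]
        exact A.inc_inc x u
      · simp [h]
    have h0 := sum_fac_ite A x u ((-1) ^ A.deg u * B.inc y v)
    have hs : ∑ x' ∈ A.fac x, A.inc x x' * pinc A B (x', y) (u, v) =
        ∑ x' ∈ A.fac x, (A.inc x x' * (if y = v then A.inc x' u else 0) +
          A.inc x x' * (if x' = u then (-1) ^ A.deg u * B.inc y v else 0)) := by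
      refine Finset.sum_congr rfl fun a _ => ?_
      unfold pinc
      by_cases h3 : y = v
      · by_cases h2 : a = u
        · subst h2 h3
          simp
          try ring
        · simp [h2, h3]
      · by_cases h2 : a = u
        · subst h2
          simp [h3]
        · simp [h2, h3]
    rw [hs, Finset.sum_add_distrib, h1, h0, zero_add]
  have e2 : ∑ y' ∈ B.fac y, (-1) ^ A.deg x * B.inc y y' * pinc A B (x, y') (u, v) =
      (-1) ^ A.deg x * (B.inc y v * A.inc x u) := by
    have h1 : ∑ y' ∈ B.fac y, B.inc y y' * (if x = u then (-1) ^ A.deg x * B.inc y' v else 0)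
        = 0 := by
      by_cases h : x = u
      · simp only [h, if_true]
        have := B.inc_inc y v
        calc ∑ y' ∈ B.fac y, B.inc y y' * ((-1) ^ A.deg u * B.inc y' v)
            = (-1) ^ A.deg u * ∑ y' ∈ B.fac y, B.inc y y' * B.inc y' v := by
              rw [Finset.mul_sum]
              refine Finset.sum_congr rfl fun _ _ => ?_
              ring
          _ = 0 := by rw [this, mul_zero]
      · simp [h]
    have h0 := sum_fac_ite B y v (A.inc x u)
    have hs : ∑ y' ∈ B.fac y, (-1) ^ A.deg x * B.inc y y' * pinc A B (x, y') (u, v) =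
        ∑ y' ∈ B.fac y, ((-1) ^ A.deg x * (B.inc y y' * (if y' = v then A.inc x u else 0)) +
          (-1) ^ A.deg x * (B.inc y y' * (if x = u then (-1) ^ A.deg x * B.inc y' v else 0))) := by
      refine Finset.sum_congr rfl fun a _ => ?_
      unfold pinc
      by_cases h3 : x = u
      · by_cases h2 : a = v
        · subst h2 h3
          simp
          try ring
        · simp [h2, h3]
          try ring
      · by_cases h2 : a = v
        · subst h2
          simp [h3]
          try ring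
        · simp [h2, h3]
    rw [hs, Finset.sum_add_distrib, ← Finset.mul_sum, ← Finset.mul_sum, h1, h0, mul_zero, add_zero]
  rw [e1, e2]
  by_cases h : A.inc x u = 0
  · rw [h]
    ring
  · rw [A.inc_deg x u h, pow_succ]
    ring

/-- The product of two complexes: the cells are the pairs of cells, and the boundary of `x × y` is
`(d x) × y + (-1) ^ deg x • x × (d y)`. -/
def prod (A B : Cplx) : Cplx where
  G := A.G × B.G
  X := A.X × B.X
  act := prodAct A B
  dim := A.dim + B.dim
  deg := fun p => A.deg p.1 + B.deg p.2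
  deg_le := prod_deg_le A B
  deg_smul := prod_deg_smul A B
  cells := A.cells ×ˢ B.cells
  cover := prod_cover A B
  unique := prod_unique A B
  stab := prod_stab A B
  inc := pinc A B
  inc_smul := prod_inc_smul A B
  inc_deg := prod_inc_deg A B
  fac := pfac A B
  mem_fac := mem_pfac A B
  cof := pcof A B
  mem_cof := fun p q => mem_pcof A B p q
  inc_inc := prod_inc_inc A B

@[simp] theorem prod_dim (A B : Cplx) : (A.prod B).dim = A.dim + B.dim := rfl

/-! ### the boundary operator -/

theorem card_fac_smul (A : Cplx) (g : A.G) (x : A.X) : (A.fac (g • x)).card ≤ (A.fac x).card := by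
  refine Finset.card_le_card_of_injOn (fun y => g⁻¹ • y) ?_ ?_
  · intro y hy
    have hy' := (A.mem_fac _ _).1 (Finset.mem_coe.1 hy)
    refine Finset.mem_coe.2 ((A.mem_fac _ _).2 ?_)
    have := A.inc_smul g x (g⁻¹ • y)
    rw [smul_inv_smul] at this
    rw [← this]
    exact hy'
  · intro a _ b _ h
    exact smul_left_cancel _ h

theorem card_cof_smul (A : Cplx) (g : A.G) (x : A.X) : (A.cof (g • x)).card ≤ (A.cof x).card := by
  refine Finset.card_le_card_of_injOn (fun y => g⁻¹ • y) ?_ ?_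
  · intro y hy
    have hy' := (A.mem_cof _ _).1 (Finset.mem_coe.1 hy)
    refine Finset.mem_coe.2 ((A.mem_cof _ _).2 ?_)
    have := A.inc_smul g (g⁻¹ • y) x
    rw [smul_inv_smul] at this
    rw [← this]
    exact hy'
  · intro a _ b _ h
    exact smul_left_cancel _ h

theorem exists_bound (A : Cplx) : ∃ N : ℕ, ∀ x, (A.fac x).card + (A.cof x).card ≤ N := by
  refine ⟨A.cells.sup fun x => (A.fac x).card + (A.cof x).card, fun x => ?_⟩
  obtain ⟨g, hg⟩ := A.cover x
  have h1 := A.card_fac_smul g⁻¹ (g • x)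
  have h2 := A.card_cof_smul g⁻¹ (g • x)
  rw [inv_smul_smul] at h1 h2
  refine (add_le_add h1 h2).trans ?_
  exact Finset.le_sup (f := fun x => (A.fac x).card + (A.cof x).card) hg

theorem exists_inc_bound (A : Cplx) : ∃ N : ℝ, 0 ≤ N ∧ ∀ x y, ‖((A.inc x y : ℤ) : ℂ)‖ ≤ N := by
  classical
  refine ⟨∑ x ∈ A.cells, ∑ y ∈ A.fac x, ‖((A.inc x y : ℤ) : ℂ)‖, by positivity, fun x y => ?_⟩
  obtain ⟨g, hg⟩ := A.cover x
  rw [← A.inc_smul g x y]
  by_cases h : A.inc (g • x) (g • y) = 0
  · rw [h]
    simp only [Int.cast_zero, norm_zero]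
    positivity
  · have h1 : ‖((A.inc (g • x) (g • y) : ℤ) : ℂ)‖ ≤
        ∑ z ∈ A.fac (g • x), ‖((A.inc (g • x) z : ℤ) : ℂ)‖ :=
      Finset.single_le_sum (f := fun z => ‖((A.inc (g • x) z : ℤ) : ℂ)‖)
        (fun _ _ => norm_nonneg _) ((A.mem_fac _ _).2 h)
    refine h1.trans ?_
    exact Finset.single_le_sum (f := fun x => ∑ z ∈ A.fac x, ‖((A.inc x z : ℤ) : ℂ)‖)
      (fun _ _ => Finset.sum_nonneg fun _ _ => norm_nonneg _) hg

theorem exists_d (A : Cplx) : ∃ T : L2 A.X →L[ℂ] L2 A.X,
    ∀ f y, T f y = ∑ x ∈ A.cof y, (A.inc x y : ℂ) * f x := by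
  classical
  obtain ⟨N, hN⟩ := A.exists_bound
  obtain ⟨C, hC0, hC⟩ := A.exists_inc_bound
  obtain ⟨T, -, hT⟩ := Pool.Agent.W657.TG.exists_kernel (X := A.X)
    (fun y => A.fac y ∪ A.cof y)
    (by
      intro x y h
      rw [Finset.mem_union, mem_fac, mem_cof] at h ⊢
      exact h.symm) N
    (fun y => (Finset.card_union_le _ _).trans (hN y))
    (fun y x => (A.inc x y : ℂ)) C hC0 (fun y x => hC x y)
  refine ⟨T, fun f y => ?_⟩
  rw [hT]
  symm
  apply Finset.sum_subset Finset.subset_union_right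
  intro x _ hx
  have : A.inc x y = 0 := by
    by_contra h
    exact hx ((A.mem_cof x y).2 h)
  rw [this]
  simp

/-- The boundary operator on the square-summable chains. -/
def d (A : Cplx) : L2 A.X →L[ℂ] L2 A.X := A.exists_d.choose

theorem d_apply (A : Cplx) (f : L2 A.X) (y : A.X) :
    A.d f y = ∑ x ∈ A.cof y, (A.inc x y : ℂ) * f x := A.exists_d.choose_spec f y

theorem d_dl (A : Cplx) (x y : A.X) : A.d (dl x) y = A.inc x y := by
  classical
  rw [d_apply]
  by_cases h : A.inc x y = 0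
  · rw [h, Int.cast_zero]
    refine Finset.sum_eq_zero fun z hz => ?_
    have hz' := (A.mem_cof z y).1 hz
    have : z ≠ x := by
      rintro rfl
      exact hz' h
    rw [dl_ne this, mul_zero]
  · rw [Finset.sum_eq_single x]
    · rw [dl_self, mul_one]
    · intro z _ hz
      rw [dl_ne hz, mul_zero]
    · intro h'
      exact absurd ((A.mem_cof x y).2 h) h'

theorem adjoint_apply (A : Cplx) (f : L2 A.X) (x : A.X) :
    adjoint A.d f x = ∑ y ∈ A.fac x, (A.inc x y : ℂ) * f y := by
  rw [← inner_dl_left, ContinuousLinearMap.adjoint_inner_right]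
  have h : HasSum (fun y => ⟪A.d (dl x) y, f y⟫_ℂ) ⟪A.d (dl x), f⟫_ℂ := lp.hasSum_inner _ _
  have h2 : HasSum (fun y => ⟪A.d (dl x) y, f y⟫_ℂ)
      (∑ y ∈ A.fac x, ⟪A.d (dl x) y, f y⟫_ℂ) := by
    apply hasSum_sum_of_ne_finset_zero
    intro y hy
    have : A.inc x y = 0 := by
      by_contra h
      exact hy ((A.mem_fac x y).2 h)
    rw [d_dl, this]
    simp
  rw [h.unique h2]
  refine Finset.sum_congr rfl fun y _ => ?_
  rw [d_dl]
  simp [mul_comm]

theorem harm_eq (A : Cplx) : A.harm = (HH A.d : Set (L2 A.X)) := by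
  ext f
  rw [SetLike.mem_coe, mem_HH]
  constructor
  · rintro ⟨h1, h2⟩
    refine ⟨?_, ?_⟩
    · ext y
      rw [d_apply, h1]
      rfl
    · ext x
      rw [adjoint_apply, h2]
      rfl
  · rintro ⟨h1, h2⟩
    refine ⟨fun y => ?_, fun x => ?_⟩
    · rw [← d_apply, h1]
      rfl
    · rw [← adjoint_apply, h2]
      rfl

theorem d_deg (A : Cplx) (x y : A.X) (h : A.d (dl x) y ≠ 0) : A.deg x = A.deg y + 1 := by
  rw [d_dl] at h
  exact A.inc_deg x y (fun h' => h (by rw [h', Int.cast_zero]))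

theorem prod_d (A B : Cplx) : (A.prod B).d = bd A.deg A.d B.d := by
  apply clm_ext
  intro p
  ext q
  rw [d_dl]
  obtain ⟨x, y⟩ := p
  obtain ⟨x', y'⟩ := q
  have h : bd A.deg A.d B.d (dl (x, y)) (x', y') =
      A.d (dl x) x' * dl y y' + (-1) ^ A.deg x' * dl x x' * B.d (dl y) y' := by
    rw [bd_apply, dl_prod, L_tens, R_tens, L_tens]
    rfl
  refine Eq.trans ?_ h.symm
  rw [d_dl, d_dl]
  change ((pinc A B (x, y) (x', y') : ℤ) : ℂ) = _
  unfold pinc
  by_cases h1 : y = y'
  · subst h1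
    by_cases h2 : x = x'
    · subst h2
      simp [dl_self]
    · simp [dl_self, h2, dl_ne (Ne.symm h2)]
  · by_cases h2 : x = x'
    · subst h2
      simp [dl_self, h1, dl_ne (Ne.symm h1)]
    · simp [h1, h2, dl_ne (Ne.symm h1), dl_ne (Ne.symm h2)]

/-! ### the Künneth formula -/

/-- The weight of a cell. -/
def wt (A : Cplx) (x : A.X) : ℝ := (1 - Metric.infDist (dl x) A.harm ^ 2) / A.ord x

theorem ord_pos (A : Cplx) (x : A.X) : 0 < A.ord x := by
  have := A.stab x
  rw [ord]
  exact_mod_cast Nat.card_pos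

theorem phi (A : Cplx) (x : A.X) :
    1 - Metric.infDist (dl x) A.harm ^ 2 = ‖(HH A.d).starProjection (dl x)‖ ^ 2 := by
  rw [harm_eq]
  exact one_sub_infDist A.d x

theorem wt_nonneg (A : Cplx) (x : A.X) : 0 ≤ A.wt x := by
  rw [wt, phi]
  exact div_nonneg (by positivity) (A.ord_pos x).le

theorem wt_le (A : Cplx) (x : A.X) : A.wt x ≤ 1 / A.ord x := by
  rw [wt]
  refine div_le_div_of_nonneg_right ?_ (A.ord_pos x).le
  have := sq_nonneg (Metric.infDist (dl x) A.harm)
  linarith

/-- A cell of the product. -/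
def pair (A B : Cplx) (x : A.X) (y : B.X) : (A.prod B).X := (x, y)

theorem ord_prod (A B : Cplx) (x : A.X) (y : B.X) :
    (A.prod B).ord (pair A B x y) = A.ord x * B.ord y := by
  have e : MulAction.stabilizer (A.prod B).G (pair A B x y) ≃
      MulAction.stabilizer A.G x × MulAction.stabilizer B.G y :=
    { toFun := fun g => (⟨g.1.1, congrArg Prod.fst g.2⟩, ⟨g.1.2, congrArg Prod.snd g.2⟩)
      invFun := fun g => ⟨(g.1.1, g.2.1), Prod.ext g.1.2 g.2.2⟩
      left_inv := fun g => rfl
      right_inv := fun g => rfl }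
  rw [ord, ord, ord, Nat.card_congr e, Nat.card_prod, Nat.cast_mul]

theorem norm_proj (A B : Cplx) (x : A.X) (y : B.X) :
    ‖(HH (A.prod B).d).starProjection (dl (pair A B x y))‖ =
      ‖(HH A.d).starProjection (dl x)‖ * ‖(HH B.d).starProjection (dl y)‖ := by
  have h : ∀ T : L2 (A.X × B.X) →L[ℂ] L2 (A.X × B.X), T = bd A.deg A.d B.d →
      ‖(HH T).starProjection (dl (x, y))‖ =
      ‖(HH A.d).starProjection (dl x)‖ * ‖(HH B.d).starProjection (dl y)‖ := by
    rintro T rfl
    rw [proj_dl A.deg A.d B.d A.d_deg x y, norm_tens]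
  exact h (A.prod B).d (prod_d A B)

theorem wt_prod (A B : Cplx) (x : A.X) (y : B.X) :
    (A.prod B).wt (pair A B x y) = A.wt x * B.wt y := by
  rw [wt, wt, wt, phi (A.prod B), phi A, phi B, ord_prod, norm_proj, mul_pow, mul_div_mul_comm]

open Polynomial

/-- The Poincaré polynomial of the `L²`-Betti numbers. -/
def pol (A : Cplx) : ℝ[X] := ∑ x ∈ A.cells, C (A.wt x) * Polynomial.X ^ A.deg x

theorem coeff_pol (A : Cplx) (k : ℕ) : A.pol.coeff k = A.betti k := by
  rw [pol, finsetSum_coeff, betti, Finset.sum_filter]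
  refine Finset.sum_congr rfl fun x _ => ?_
  rw [coeff_C_mul, coeff_X_pow, wt]
  by_cases h : A.deg x = k
  · rw [if_pos h, if_pos h.symm, mul_one]
  · rw [if_neg h, if_neg (Ne.symm h), mul_zero]

/-- The Künneth formula. -/
theorem pol_prod (A B : Cplx) : (A.prod B).pol = A.pol * B.pol := by
  rw [pol, pol, pol, Finset.sum_mul_sum, ← Finset.sum_product']
  change ∑ p ∈ A.cells ×ˢ B.cells,
    C ((A.prod B).wt (pair A B p.1 p.2)) * Polynomial.X ^ (A.deg p.1 + B.deg p.2) = _
  refine Finset.sum_congr rfl fun p _ => ?_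
  rw [wt_prod, C_mul, pow_add]
  ring

theorem betti_nonneg (A : Cplx) (k : ℕ) : 0 ≤ A.betti k :=
  Finset.sum_nonneg fun x _ => A.wt_nonneg x

theorem betti_eq_zero (A : Cplx) {k : ℕ} (hk : A.dim < k) : A.betti k = 0 := by
  rw [betti, Finset.filter_eq_empty_iff.2, Finset.sum_empty]
  intro x _ h
  have := A.deg_le x
  omega

theorem total_eq (A : Cplx) : A.total = A.pol.eval 1 := by
  have hd : A.pol.natDegree < A.dim + 1 := by
    rw [Nat.lt_succ_iff, natDegree_le_iff_coeff_eq_zero]
    intro N hN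
    rw [coeff_pol, betti_eq_zero A hN]
  rw [eval_eq_sum_range' hd, total]
  refine Finset.sum_congr rfl fun k _ => ?_
  rw [coeff_pol, one_pow, mul_one]

theorem total_prod (A B : Cplx) : (A.prod B).total = A.total * B.total := by
  rw [total_eq, total_eq, total_eq, pol_prod, eval_mul]

theorem euler_prod (A B : Cplx) : (A.prod B).euler = A.euler * B.euler := by
  rw [euler, euler, euler, Finset.sum_mul_sum, ← Finset.sum_product']
  change ∑ p ∈ A.cells ×ˢ B.cells,
    (-1) ^ (A.deg p.1 + B.deg p.2) / (A.prod B).ord (pair A B p.1 p.2) = _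
  refine Finset.sum_congr rfl fun p _ => ?_
  rw [ord_prod, pow_add, mul_div_mul_comm]

theorem mass_prod (A B : Cplx) : (A.prod B).mass = A.mass * B.mass := by
  rw [mass, mass, mass, Finset.sum_mul_sum, ← Finset.sum_product']
  change ∑ p ∈ A.cells ×ˢ B.cells, 1 / (A.prod B).ord (pair A B p.1 p.2) = _
  refine Finset.sum_congr rfl fun p _ => ?_
  rw [ord_prod, one_div_mul_one_div]

theorem total_nonneg (A : Cplx) : 0 ≤ A.total := Finset.sum_nonneg fun k _ => A.betti_nonneg k

theorem betti_le_total (A : Cplx) (k : ℕ) : A.betti k ≤ A.total := by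
  by_cases hk : k ≤ A.dim
  · exact Finset.single_le_sum (f := fun k => A.betti k) (fun j _ => A.betti_nonneg j)
      (Finset.mem_range.2 (by omega))
  · rw [A.betti_eq_zero (by omega)]
    exact A.total_nonneg

theorem total_le_mass (A : Cplx) : A.total ≤ A.mass := by
  rw [total_eq, pol, eval_finsetSum, mass]
  refine Finset.sum_le_sum fun x _ => ?_
  rw [eval_mul, eval_C, eval_pow, eval_X, one_pow, mul_one]
  exact A.wt_le x

end Cplx

end Pool.Agent.Run7.h604.HK
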