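import Pool.Agent.Run7.h604.HK.Cplx

/-!
# The bottom of the spectrum of the Laplacian is additive under products
-/

set_option autoImplicit false

open scoped ENNReal InnerProductSpace
open ContinuousLinearMap (adjoint)

noncomputable section

namespace Pool.Agent.Run7.h604.HK

variable {X Y : Type}

theorem hasSum_s₁ (F : L2 (X × Y)) : HasSum (fun y => ‖s₁ F y‖ ^ 2) (‖F‖ ^ 2) :=
  hasSum_sl (Equiv.prodComm X Y) F

theorem hasSum_s₂ (F : L2 (X × Y)) : HasSum (fun x => ‖s₂ F x‖ ^ 2) (‖F‖ ^ 2) :=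
  hasSum_sl (Equiv.refl (X × Y)) F

theorem gap_L {d : L2 X →L[ℂ] L2 X} {a : ℝ}
    (h : ∀ f, a * ‖f‖ ^ 2 ≤ ‖d f‖ ^ 2 + ‖adjoint d f‖ ^ 2) (F : L2 (X × Y)) :
    a * ‖F‖ ^ 2 ≤ ‖L d F‖ ^ 2 + ‖L (adjoint d) F‖ ^ 2 := by
  have h1 := (hasSum_s₁ F).mul_left a
  have h2 := (hasSum_s₁ (L d F)).add (hasSum_s₁ (L (adjoint d) F))
  refine hasSum_le (fun y => ?_) h1 h2
  rw [s₁_L, s₁_L]
  exact h _

theorem gap_R {e : L2 Y →L[ℂ] L2 Y} {b : ℝ}
    (h : ∀ f, b * ‖f‖ ^ 2 ≤ ‖e f‖ ^ 2 + ‖adjoint e f‖ ^ 2) (F : L2 (X × Y)) :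
    b * ‖F‖ ^ 2 ≤ ‖R e F‖ ^ 2 + ‖R (adjoint e) F‖ ^ 2 := by
  have h1 := (hasSum_s₂ F).mul_left b
  have h2 := (hasSum_s₂ (R e F)).add (hasSum_s₂ (R (adjoint e) F))
  refine hasSum_le (fun y => ?_) h1 h2
  rw [s₂_R, s₂_R]
  exact h _

namespace Cplx

/-- The Laplacian on the square-summable chains is bounded below by `c`: the sum of the squares of
the norms of the boundary and of the coboundary of `f` is at least `c ‖f‖ ^ 2`. So zero is not in the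
spectrum of the Laplacian if and only if this holds for some `c > 0`. -/
def BoundedBelow (A : Cplx) (c : ℝ) : Prop :=
  ∀ f : L2 A.X, c * ‖f‖ ^ 2 ≤ (∑' y, ‖∑ x ∈ A.cof y, (A.inc x y : ℂ) * f x‖ ^ 2) +
    ∑' x, ‖∑ y ∈ A.fac x, (A.inc x y : ℂ) * f y‖ ^ 2

theorem boundedBelow_iff (A : Cplx) (c : ℝ) : A.BoundedBelow c ↔
    ∀ f : L2 A.X, c * ‖f‖ ^ 2 ≤ ‖A.d f‖ ^ 2 + ‖adjoint A.d f‖ ^ 2 := by
  refine forall_congr' fun f => ?_
  have e1 : ‖A.d f‖ ^ 2 = ∑' y, ‖∑ x ∈ A.cof y, (A.inc x y : ℂ) * f x‖ ^ 2 := by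
    rw [norm_sq]
    refine tsum_congr fun y => ?_
    rw [d_apply]
  have e2 : ‖adjoint A.d f‖ ^ 2 = ∑' x, ‖∑ y ∈ A.fac x, (A.inc x y : ℂ) * f y‖ ^ 2 := by
    rw [norm_sq]
    refine tsum_congr fun y => ?_
    rw [adjoint_apply]
  rw [e1, e2]

theorem boundedBelow_zero (A : Cplx) : A.BoundedBelow 0 := by
  rw [boundedBelow_iff]
  intro f
  rw [zero_mul]
  positivity

theorem BoundedBelow.mono {A : Cplx} {c c' : ℝ} (h : A.BoundedBelow c) (hc : c' ≤ c) :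
    A.BoundedBelow c' := fun f =>
  (mul_le_mul_of_nonneg_right hc (sq_nonneg _)).trans (h f)

theorem BoundedBelow.prod {A B : Cplx} {a b : ℝ} (ha : A.BoundedBelow a)
    (hb : B.BoundedBelow b) : (A.prod B).BoundedBelow (a + b) := by
  rw [boundedBelow_iff] at *
  have h : ∀ T : L2 (A.X × B.X) →L[ℂ] L2 (A.X × B.X), T = bd A.deg A.d B.d → ∀ F,
      (a + b) * ‖F‖ ^ 2 ≤ ‖T F‖ ^ 2 + ‖adjoint T F‖ ^ 2 := by
    rintro T rfl F
    rw [norm_bd A.deg A.d B.d A.d_deg F, add_mul]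
    exact add_le_add (gap_L ha F) (gap_R hb F)
  exact h (A.prod B).d (prod_d A B)

/-- `A ^ (n + 1)`. -/
def pr (A : Cplx) : ℕ → Cplx
  | 0 => A
  | n + 1 => (pr A n).prod A

theorem pr_dim (A : Cplx) (n : ℕ) : (A.pr n).dim = (n + 1) * A.dim := by
  induction n with
  | zero => simp [pr]
  | succ n ih => rw [pr, prod_dim, ih]; ring

theorem pr_mem {𝒞 : Cplx → Prop} (hp : ∀ A B, 𝒞 A → 𝒞 B → 𝒞 (A.prod B)) {A : Cplx} (hA : 𝒞 A)
    (n : ℕ) : 𝒞 (A.pr n) := by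
  induction n with
  | zero => exact hA
  | succ n ih => exact hp _ _ ih hA

theorem pr_bb {A : Cplx} {c : ℝ} (h : A.BoundedBelow c) (n : ℕ) :
    (A.pr n).BoundedBelow ((n + 1) * c) := by
  induction n with
  | zero =>
    have e : ((0 : ℕ) + 1 : ℝ) * c = c := by simp
    rw [e]
    exact h
  | succ n ih =>
    have := ih.prod h
    have e : ((n + 1 : ℕ) + 1 : ℝ) * c = (n + 1) * c + c := by
      push_cast
      ring
    rw [e]
    exact this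

theorem pr_size {𝒞 : Cplx → Prop} (hp : ∀ A B, 𝒞 A → 𝒞 B → 𝒞 (A.prod B)) (s : Cplx → ℝ)
    (hs : ∀ A B, 𝒞 A → 𝒞 B → s (A.prod B) ≤ s A + s B) {A : Cplx} (hA : 𝒞 A) (n : ℕ) :
    s (A.pr n) ≤ (n + 1) * s A := by
  induction n with
  | zero => simp [pr]
  | succ n ih =>
    have := hs _ _ (pr_mem hp hA n) hA
    push_cast
    rw [pr]
    linarith

theorem gap_law (𝒞 : Cplx → Prop) (hp : ∀ A B, 𝒞 A → 𝒞 B → 𝒞 (A.prod B))
    (hT : ∃ T, 𝒞 T ∧ T.dim = 1)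
    (s : Cplx → ℝ) (hs : ∀ A B, 𝒞 A → 𝒞 B → s (A.prod B) ≤ s A + s B)
    (hs0 : ∀ A, 𝒞 A → 0 ≤ s A)
    (H : ∀ ε : ℝ, 0 < ε → ∀ N : ℕ, ∃ n ≥ N, ∀ A, 𝒞 A → A.dim = n → ∀ c, A.BoundedBelow c →
      c ≤ ε * s A)
    (A : Cplx) (hA : 𝒞 A) (hd : A.dim ≠ 0) (c : ℝ) (hc : A.BoundedBelow c) : c ≤ 0 := by
  by_contra hc0
  rw [not_le] at hc0
  obtain ⟨T, hTC, hTd⟩ := hT
  set n := A.dim with hn
  have hn1 : 1 ≤ n := by omega
  set E : ℝ := s A + n * s T + 1 with hE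
  have hsA := hs0 A hA
  have hsT := hs0 T hTC
  have hE0 : 0 < E := by positivity
  obtain ⟨m, hm, hβ⟩ := H (c / (2 * E)) (by positivity) (n + 1)
  obtain ⟨r, j, hmr, hjn⟩ : ∃ r j : ℕ, m = (r + 1) * n + (j + 1) ∧ j < n := by
    have h1 : 1 ≤ (m - 1) / n := (Nat.one_le_div_iff (by omega)).2 (by omega)
    obtain ⟨r, hr⟩ := Nat.exists_eq_add_of_le h1
    refine ⟨r, (m - 1) % n, ?_, Nat.mod_lt _ (by omega)⟩
    have h2 := Nat.div_add_mod (m - 1) n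
    rw [hr] at h2
    have h3 : (r + 1) * n = n * (1 + r) := by ring
    rw [h3]
    omega
  have h1 := hβ ((A.pr r).prod (T.pr j)) (hp _ _ (pr_mem hp hA r) (pr_mem hp hTC j))
    (by rw [prod_dim, pr_dim, pr_dim, hTd, ← hn, hmr]; ring) _
    ((pr_bb hc r).prod (T.pr j).boundedBelow_zero)
  have h2 : s ((A.pr r).prod (T.pr j)) ≤ (r + 1) * s A + (j + 1) * s T := by
    have h3 := hs _ _ (pr_mem hp hA r) (pr_mem hp hTC j)
    have h4 := pr_size hp s hs hA r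
    have h5 := pr_size hp s hs hTC j
    linarith
  have h3 : (r + 1) * s A + (j + 1) * s T ≤ ((r : ℝ) + 1) * E := by
    have hj : ((j : ℝ) + 1) ≤ n := by exact_mod_cast hjn
    have hr : (0 : ℝ) ≤ r := Nat.cast_nonneg r
    have h4 : ((j : ℝ) + 1) * s T ≤ n * s T := mul_le_mul_of_nonneg_right hj hsT
    rw [hE]
    nlinarith [mul_nonneg hr (mul_nonneg (Nat.cast_nonneg n : (0 : ℝ) ≤ n) hsT)]
  have h4 : ((r : ℝ) + 1) * c + 0 ≤ c / (2 * E) * ((r + 1) * E) :=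
    h1.trans (mul_le_mul_of_nonneg_left (h2.trans h3) (by positivity))
  have h5 : c / (2 * E) * ((r + 1) * E) = ((r : ℝ) + 1) * c / 2 := by field_simp
  rw [h5] at h4
  have : 0 < ((r : ℝ) + 1) * c := by positivity
  linarith

theorem gap_law_iff (𝒞 : Cplx → Prop) (hp : ∀ A B, 𝒞 A → 𝒞 B → 𝒞 (A.prod B))
    (hT : ∃ T, 𝒞 T ∧ T.dim = 1)
    (s : Cplx → ℝ) (hs : ∀ A B, 𝒞 A → 𝒞 B → s (A.prod B) ≤ s A + s B)
    (hs0 : ∀ A, 𝒞 A → 0 ≤ s A) :
    (∀ A, 𝒞 A → A.dim ≠ 0 → ∀ c, A.BoundedBelow c → c ≤ 0) ↔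
      ∀ ε : ℝ, 0 < ε → ∀ N : ℕ, ∃ n ≥ N, ∀ A, 𝒞 A → A.dim = n → ∀ c, A.BoundedBelow c →
        c ≤ ε * s A := by
  refine ⟨fun h ε hε N => ⟨N + 1, by omega, fun A hA hd c hc => ?_⟩,
    fun H A hA hd c hc => gap_law 𝒞 hp hT s hs hs0 H A hA hd c hc⟩
  exact (h A hA (by omega) c hc).trans (mul_nonneg hε.le (hs0 A hA))

/-- The largest number of faces and cofaces of a cell. -/
def valence (A : Cplx) : ℕ := A.cells.sup fun x => (A.fac x).card + (A.cof x).card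

theorem le_valence (A : Cplx) (x : A.X) : (A.fac x).card + (A.cof x).card ≤ A.valence := by
  obtain ⟨g, hg⟩ := A.cover x
  have h1 := A.card_fac_smul g⁻¹ (g • x)
  have h2 := A.card_cof_smul g⁻¹ (g • x)
  rw [inv_smul_smul] at h1 h2
  refine (add_le_add h1 h2).trans ?_
  exact Finset.le_sup (f := fun x => (A.fac x).card + (A.cof x).card) hg

theorem valence_prod (A B : Cplx) : (A.prod B).valence ≤ A.valence + B.valence := by
  classical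
  refine Finset.sup_le fun p _ => ?_
  have h1 : ((A.prod B).fac p).card ≤ (A.fac p.1).card + (B.fac p.2).card := by
    change (pfac A B p).card ≤ _
    refine (Finset.card_union_le _ _).trans ?_
    simp
  have h2 : ((A.prod B).cof p).card ≤ (A.cof p.1).card + (B.cof p.2).card := by
    change (pcof A B p).card ≤ _
    refine (Finset.card_union_le _ _).trans ?_
    simp
  have h3 := A.le_valence p.1
  have h4 := B.le_valence p.2
  omega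

end Cplx

end Pool.Agent.Run7.h604.HK
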