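import Pool.Agent.Run7.h604.HK.Cplx
import Pool.Agent.Run7.h604.HK.Conc

/-!
# Power laws for the `L²`-Betti numbers of classes of complexes closed under products
-/

set_option autoImplicit false

open Polynomial

noncomputable section

namespace Pool.Agent.Run7.h604.HK.Cplx

/-- `A ^ (n + 1)`. -/
def pw (A : Cplx) : ℕ → Cplx
  | 0 => A
  | n + 1 => (pw A n).prod A

theorem pw_dim (A : Cplx) (n : ℕ) : (A.pw n).dim = (n + 1) * A.dim := by
  induction n with
  | zero => simp [pw]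
  | succ n ih => rw [pw, prod_dim, ih]; ring

theorem pw_pol (A : Cplx) (n : ℕ) : (A.pw n).pol = A.pol ^ (n + 1) := by
  induction n with
  | zero => simp [pw]
  | succ n ih => rw [pw, pol_prod, ih, pow_succ _ (n + 1)]

theorem pw_euler (A : Cplx) (n : ℕ) : (A.pw n).euler = A.euler ^ (n + 1) := by
  induction n with
  | zero => simp [pw]
  | succ n ih => rw [pw, euler_prod, ih, pow_succ _ (n + 1)]

theorem pw_total (A : Cplx) (n : ℕ) : (A.pw n).total = A.total ^ (n + 1) := by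
  rw [total_eq, total_eq, pw_pol, eval_pow]

theorem pw_mass (A : Cplx) (n : ℕ) : (A.pw n).mass = A.mass ^ (n + 1) := by
  induction n with
  | zero => simp [pw]
  | succ n ih => rw [pw, mass_prod, ih, pow_succ _ (n + 1)]

theorem pw_mem {𝒞 : Cplx → Prop} (hp : ∀ A B, 𝒞 A → 𝒞 B → 𝒞 (A.prod B)) {A : Cplx} (hA : 𝒞 A)
    (n : ℕ) : 𝒞 (A.pw n) := by
  induction n with
  | zero => exact hA
  | succ n ih => exact hp _ _ ih hA

theorem NN_pol (A : Cplx) : NN A.pol := fun k => by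
  rw [coeff_pol]
  exact A.betti_nonneg k

theorem total_pos {A : Cplx} {k : ℕ} (h : A.betti k ≠ 0) : 0 < A.total :=
  lt_of_lt_of_le (lt_of_le_of_ne (A.betti_nonneg k) (Ne.symm h)) (A.betti_le_total k)

/-- The polynomial of a complex with Betti numbers in degree one only. -/
theorem pol_surface {S : Cplx} (hd : S.dim = 2) (h0 : S.betti 0 = 0) (h2 : S.betti 2 = 0) :
    S.pol = C (S.betti 1) * Polynomial.X := by
  ext k
  rw [coeff_pol, coeff_C_mul, coeff_X]
  by_cases h : 2 < k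
  · rw [S.betti_eq_zero (by omega), if_neg (by omega), mul_zero]
  · interval_cases k
    · simp [h0]
    · simp
    · simp [h2]

theorem total_surface {S : Cplx} (hd : S.dim = 2) (h0 : S.betti 0 = 0) (h2 : S.betti 2 = 0) :
    S.total = S.betti 1 := by
  rw [total_eq, pol_surface hd h0 h2]
  simp

/-- A member of even dimension `2 m`: `r + 1` factors `A` of dimension `2 n` and `j + 1` surfaces. -/
theorem mix {𝒞 : Cplx → Prop} (hp : ∀ A B, 𝒞 A → 𝒞 B → 𝒞 (A.prod B)) {A S : Cplx} (hA : 𝒞 A)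
    (hS : 𝒞 S) (hd : S.dim = 2) {n : ℕ} (hn : A.dim = 2 * n) (r j : ℕ) :
    ∃ B, 𝒞 B ∧ B.dim = 2 * ((r + 1) * n + (j + 1)) ∧ B.pol = A.pol ^ (r + 1) * S.pol ^ (j + 1) ∧
      B.total = A.total ^ (r + 1) * S.total ^ (j + 1) ∧
      B.euler = A.euler ^ (r + 1) * S.euler ^ (j + 1) ∧
      B.mass = A.mass ^ (r + 1) * S.mass ^ (j + 1) := by
  refine ⟨(A.pw r).prod (S.pw j), hp _ _ (pw_mem hp hA r) (pw_mem hp hS j), ?_, ?_, ?_, ?_, ?_⟩
  · rw [prod_dim, pw_dim, pw_dim, hd, hn]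
    ring
  · rw [pol_prod, pw_pol, pw_pol]
  · rw [total_prod, pw_total, pw_total]
  · rw [euler_prod, pw_euler, pw_euler]
  · rw [mass_prod, pw_mass, pw_mass]

theorem sum_window {P : ℝ[X]} {M : ℝ} (hM : 0 ≤ M) (h : ∀ k, P.coeff k ≤ M) (m f : ℕ) :
    ∑ k ∈ Finset.Icc (m - f) (m + f), P.coeff k ≤ (2 * f + 1) * M := by
  calc ∑ k ∈ Finset.Icc (m - f) (m + f), P.coeff k
      ≤ ∑ _k ∈ Finset.Icc (m - f) (m + f), M := Finset.sum_le_sum fun k _ => h k
    _ = ((Finset.Icc (m - f) (m + f)).card : ℝ) * M := by rw [Finset.sum_const, nsmul_eq_mul]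
    _ ≤ (2 * f + 1) * M := by
        refine mul_le_mul_of_nonneg_right ?_ hM
        rw [Nat.card_Icc]
        have : m + f + 1 - (m - f) ≤ 2 * f + 1 := by omega
        exact_mod_cast this

/-- The middle share law. -/
theorem middle_share (𝒞 : Cplx → Prop) (hp : ∀ A B, 𝒞 A → 𝒞 B → 𝒞 (A.prod B))
    (hS : ∀ t : ℝ, ∃ S, 𝒞 S ∧ S.dim = 2 ∧ t ≤ S.betti 1 ∧ S.betti 0 = 0 ∧ S.betti 2 = 0)
    (H : ∀ K : ℝ, ∃ (m f : ℕ) (ρ β : ℝ), K * (f + 1) ≤ ρ * √m ∧
      ∀ A, 𝒞 A → A.dim = 2 * m → β ≤ A.total →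
        ρ * A.total ≤ ∑ k ∈ Finset.Icc (m - f) (m + f), A.betti k)
    (A : Cplx) (hA : 𝒞 A) (k : ℕ) (hk : 2 * k ≠ A.dim) : A.betti k = 0 := by
  by_contra hne
  have hpos : 0 < A.betti k := lt_of_le_of_ne (A.betti_nonneg k) (Ne.symm hne)
  have hkd : k ≤ A.dim := by
    by_contra h
    exact hne (A.betti_eq_zero (by omega))
  set n := A.dim with hn
  have hn1 : 1 ≤ n := by omega
  -- the square
  set D := A.prod A with hD
  have hDC : 𝒞 D := hp _ _ hA hA
  have hDd : D.dim = 2 * n := by rw [hD, prod_dim]; ring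
  set Q := D.pol with hQ
  have hQN : NN Q := D.NN_pol
  have hQi : 0 < Q.coeff (2 * k) := by
    rw [hQ, hD, pol_prod, coeff_mul]
    refine lt_of_lt_of_le (mul_pos hpos hpos) ?_
    have h := Finset.single_le_sum
      (f := fun x : ℕ × ℕ => A.pol.coeff x.1 * A.pol.coeff x.2)
      (s := Finset.HasAntidiagonal.antidiagonal (2 * k)) (fun x _ => mul_nonneg (A.NN_pol _) (A.NN_pol _))
      (show (k, k) ∈ Finset.HasAntidiagonal.antidiagonal (2 * k) by
        rw [Finset.HasAntidiagonal.mem_antidiagonal]; ring)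
    simpa [coeff_pol] using h
  set F := Q.eval 1 with hF
  have hF0 : 0 < F := lt_of_lt_of_le hQi (hQN.coeff_le _)
  have hDt : D.total = F := by rw [total_eq]
  -- choice of the constants
  obtain ⟨a, ha, hcase⟩ : ∃ a : ℝ, 0 < a ∧ ((∃ j, 2 * k ≠ j ∧ a ≤ Q.coeff (2 * k) ∧ a ≤ Q.coeff j) ∨
      ∀ j, 2 * k ≠ j → Q.coeff j = 0) := by
    by_cases h : ∃ j, 2 * k ≠ j ∧ Q.coeff j ≠ 0
    · obtain ⟨j, hj, hj0⟩ := h
      have hj' : 0 < Q.coeff j := lt_of_le_of_ne (hQN j) (Ne.symm hj0)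
      exact ⟨min (Q.coeff (2 * k)) (Q.coeff j), lt_min hQi hj', Or.inl ⟨j, hj, min_le_left _ _,
        min_le_right _ _⟩⟩
    · push Not at h
      exact ⟨1, one_pos, Or.inr h⟩
  set K : ℝ := n + 2 + 2 * n * F / a with hK
  have hnR : (1 : ℝ) ≤ n := by exact_mod_cast hn1
  have hK2 : (n : ℝ) + 2 ≤ K := by
    rw [hK]
    have : 0 ≤ 2 * n * F / a := by positivity
    linarith
  have hK3 : 2 * n * F < K * a := by
    have e : K * a = (n + 2) * a + 2 * n * F := by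
      rw [hK]; field_simp
    rw [e]
    have : 0 < ((n : ℝ) + 2) * a := by positivity
    linarith
  have hKK : K ≤ K ^ 2 := by nlinarith
  obtain ⟨m, f, ρ, β, hKf, hH⟩ := H K
  have hf0 : (0 : ℝ) ≤ f := Nat.cast_nonneg f
  have hKf' : 0 < K * (f + 1) := by positivity
  have hρm : 0 < ρ * √m := lt_of_lt_of_le hKf' hKf
  have hm0 : m ≠ 0 := by
    rintro rfl
    simp at hρm
  have hρ : 0 < ρ := by
    by_contra h
    have : ρ * √m ≤ 0 := mul_nonpos_of_nonpos_of_nonneg (not_lt.1 h) (Real.sqrt_nonneg _)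
    linarith
  -- `ρ ≤ 1`
  have hρ1 : ρ ≤ 1 := by
    obtain ⟨S, hSC, hSd, hSt, h0, h2⟩ := hS (max 1 β)
    have h1 : (1 : ℝ) ≤ S.betti 1 := le_trans (le_max_left _ _) hSt
    have hβ : β ≤ S.betti 1 := le_trans (le_max_right _ _) hSt
    obtain ⟨j, rfl⟩ := Nat.exists_eq_succ_of_ne_zero hm0
    have hT : (S.pw j).total = S.betti 1 ^ (j + 1) := by
      rw [pw_total, total_surface hSd h0 h2]
    have hT1 : β ≤ (S.pw j).total := by
      rw [hT]
      exact hβ.trans (le_self_pow₀ h1 (by omega))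
    have hTd : (S.pw j).dim = 2 * (j + 1) := by rw [pw_dim, hSd]; ring
    have h := hH (S.pw j) (pw_mem hp hSC j) hTd hT1
    have h' : ∑ k ∈ Finset.Icc (j.succ - f) (j.succ + f), (S.pw j).betti k ≤ (S.pw j).total := by
      have := (S.pw j).NN_pol.sum_le (Finset.Icc (j.succ - f) (j.succ + f))
      simpa [coeff_pol, total_eq] using this
    have hpos' : 0 < (S.pw j).total := by
      rw [hT]; positivity
    by_contra hc
    have := mul_lt_mul_of_pos_right (not_le.1 hc) hpos'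
    linarith
  have hmK : (K * (f + 1)) ^ 2 ≤ ρ ^ 2 * m := by
    have h := pow_le_pow_left₀ hKf'.le hKf 2
    rwa [mul_pow ρ, Real.sq_sqrt (Nat.cast_nonneg m)] at h
  have hmK' : (K * (f + 1)) ^ 2 ≤ m := by
    refine hmK.trans ?_
    have : ρ ^ 2 ≤ 1 := pow_le_one₀ hρ.le hρ1
    nlinarith [(Nat.cast_nonneg m : (0 : ℝ) ≤ m)]
  -- division with remainder
  have hmn : n + 1 ≤ m := by
    have h1 : ((n : ℝ) + 2) ≤ m := by
      calc (n : ℝ) + 2 ≤ K := hK2
        _ ≤ K * (f + 1) := by nlinarith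
        _ ≤ (K * (f + 1)) ^ 2 := by
            have : 1 ≤ K * (f + 1) := by nlinarith
            nlinarith
        _ ≤ m := hmK'
    have : n + 2 ≤ m := by exact_mod_cast h1
    omega
  obtain ⟨r, j, hrj, hjn⟩ : ∃ r j : ℕ, m = (r + 1) * n + (j + 1) ∧ j < n := by
    have h1 : 1 ≤ (m - 1) / n := (Nat.one_le_div_iff (by omega)).2 (by omega)
    obtain ⟨r, hr⟩ := Nat.exists_eq_add_of_le h1
    refine ⟨r, (m - 1) % n, ?_, Nat.mod_lt _ (by omega)⟩
    have h2 := Nat.div_add_mod (m - 1) n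
    rw [hr] at h2
    have h3 : (r + 1) * n = n * (1 + r) := by ring
    rw [h3]
    omega
  have hmr : (m : ℝ) ≤ n * ((r + 1 : ℕ) + 1) := by
    have : m ≤ n * ((r + 1) + 1) := by
      rw [hrj]
      have : (r + 1) * n = n * (r + 1) := by ring
      rw [this, mul_add n (r + 1) 1]
      omega
    exact_mod_cast this
  obtain ⟨S, hSC, hSd, hSt, h0, h2⟩ := hS (max 1 (β / F ^ (r + 1)))
  set s := S.betti 1 with hs
  have h1 : (1 : ℝ) ≤ s := le_trans (le_max_left _ _) hSt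
  have hβ : β / F ^ (r + 1) ≤ s := le_trans (le_max_right _ _) hSt
  obtain ⟨B, hBC, hBd, hBp, hBt, -, -⟩ := mix hp hDC hSC hSd hDd r j
  rw [← hrj] at hBd
  rw [total_surface hSd h0 h2, hDt, ← hs] at hBt
  rw [pol_surface hSd h0 h2, ← hs, ← hQ, mul_pow, ← C_pow] at hBp
  have hFr : 0 < F ^ (r + 1) := by positivity
  have hsj : 0 < s ^ (j + 1) := by positivity
  have hβB : β ≤ B.total := by
    rw [hBt]
    rw [div_le_iff₀ hFr] at hβ
    calc β ≤ s * F ^ (r + 1) := hβ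
      _ ≤ s ^ (j + 1) * F ^ (r + 1) :=
          mul_le_mul_of_nonneg_right (le_self_pow₀ h1 (by omega)) hFr.le
      _ = _ := mul_comm _ _
  have hmain := hH B hBC hBd hβB
  have hcB : ∀ l, B.betti l = s ^ (j + 1) * (Q ^ (r + 1) * Polynomial.X ^ (j + 1)).coeff l := by
    intro l
    rw [← coeff_pol, hBp, ← coeff_C_mul]
    congr 1
    ring
  rw [Finset.sum_congr rfl fun l _ => hcB l, ← Finset.mul_sum, hBt] at hmain
  have hmain' : ρ * F ^ (r + 1) ≤ ∑ l ∈ Finset.Icc (m - f) (m + f),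
      (Q ^ (r + 1) * Polynomial.X ^ (j + 1)).coeff l := by
    have e : ρ * (F ^ (r + 1) * s ^ (j + 1)) = s ^ (j + 1) * (ρ * F ^ (r + 1)) := by ring
    rw [e] at hmain
    exact le_of_mul_le_mul_left hmain hsj
  rcases hcase with ⟨i', hi', hai, haj⟩ | hmono
  · -- several degrees
    set M : ℝ := √(F ^ (2 * (r + 1) + 1) / (2 * a * ((r + 1 : ℕ) + 1))) with hM
    have hMb : ∀ l, (Q ^ (r + 1) * Polynomial.X ^ (j + 1)).coeff l ≤ M := by
      intro l
      rw [coeff_mul_X_pow']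
      split_ifs
      · apply Real.le_sqrt_of_sq_le
        rw [le_div_iff₀ (by positivity)]
        exact conc hQN hi' ha hai haj (r + 1) _
      · exact Real.sqrt_nonneg _
    have hw := sum_window (Real.sqrt_nonneg _) hMb m f
    have h3 : ρ * F ^ (r + 1) ≤ (2 * f + 1) * M := hmain'.trans hw
    have h4 := pow_le_pow_left₀ (by positivity) h3 2
    rw [mul_pow, mul_pow, hM, Real.sq_sqrt (by positivity), mul_div_assoc',
      le_div_iff₀ (by positivity)] at h4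
    have h5 : F ^ (2 * (r + 1) + 1) = (F ^ (r + 1)) ^ 2 * F := by
      rw [← pow_mul, ← pow_succ]
      congr 1
      ring
    rw [h5] at h4
    have h6 : ρ ^ 2 * (2 * a * ((r + 1 : ℕ) + 1)) ≤ (2 * f + 1) ^ 2 * F := by
      refine le_of_mul_le_mul_left (a := (F ^ (r + 1)) ^ 2) ?_ (by positivity)
      calc (F ^ (r + 1)) ^ 2 * (ρ ^ 2 * (2 * a * ((r + 1 : ℕ) + 1)))
          = ρ ^ 2 * (F ^ (r + 1)) ^ 2 * (2 * a * ((r + 1 : ℕ) + 1)) := by ring
        _ ≤ _ := h4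
        _ = _ := by ring
    have h7 : ρ ^ 2 * m * (2 * a) ≤ 4 * (f + 1) ^ 2 * F * n := by
      calc ρ ^ 2 * m * (2 * a) ≤ ρ ^ 2 * (n * ((r + 1 : ℕ) + 1)) * (2 * a) := by gcongr
        _ = n * (ρ ^ 2 * (2 * a * ((r + 1 : ℕ) + 1))) := by ring
        _ ≤ n * ((2 * f + 1) ^ 2 * F) := by gcongr
        _ ≤ n * ((2 * (f + 1)) ^ 2 * F) := by gcongr; linarith
        _ = _ := by ring
    have h8 : (K * (f + 1)) ^ 2 * (2 * a) ≤ 4 * (f + 1) ^ 2 * F * n :=
      (mul_le_mul_of_nonneg_right hmK (by positivity)).trans h7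
    have h9 : K ^ 2 * a ≤ 2 * n * F := by
      have hff : 0 < 2 * ((f : ℝ) + 1) ^ 2 := by positivity
      refine le_of_mul_le_mul_left (a := 2 * ((f : ℝ) + 1) ^ 2) ?_ hff
      calc 2 * ((f : ℝ) + 1) ^ 2 * (K ^ 2 * a) = (K * (f + 1)) ^ 2 * (2 * a) := by ring
        _ ≤ _ := h8
        _ = _ := by ring
    nlinarith
  · -- one degree
    have hQm : Q = C (Q.coeff (2 * k)) * Polynomial.X ^ (2 * k) := by
      ext l
      rw [coeff_C_mul, coeff_X_pow]
      by_cases h : l = 2 * k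
      · rw [if_pos h, h, mul_one]
      · rw [if_neg h, mul_zero]
        exact hmono l (Ne.symm h)
    have hco : ∀ l, l ≠ 2 * k * (r + 1) + (j + 1) →
        (Q ^ (r + 1) * Polynomial.X ^ (j + 1)).coeff l = 0 := by
      intro l hl
      rw [hQm, mul_pow, ← C_pow, ← pow_mul, mul_assoc, ← pow_add, coeff_C_mul, coeff_X_pow,
        if_neg hl, mul_zero]
    by_cases hfr : f < r + 1
    · have hz : ∑ l ∈ Finset.Icc (m - f) (m + f),
          (Q ^ (r + 1) * Polynomial.X ^ (j + 1)).coeff l = 0 := by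
        refine Finset.sum_eq_zero fun l hl => hco l ?_
        rintro rfl
        rw [Finset.mem_Icc] at hl
        rcases lt_or_gt_of_ne hk with h | h
        · have e1 : (2 * k + 1) * (r + 1) ≤ n * (r + 1) := Nat.mul_le_mul_right _ h
          have e2 : (2 * k + 1) * (r + 1) = 2 * k * (r + 1) + (r + 1) := by ring
          have e3 : n * (r + 1) = (r + 1) * n := mul_comm _ _
          omega
        · have e1 : (n + 1) * (r + 1) ≤ 2 * k * (r + 1) := Nat.mul_le_mul_right _ h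
          have e2 : (n + 1) * (r + 1) = (r + 1) * n + (r + 1) := by ring
          omega
      rw [hz] at hmain'
      have : 0 < ρ * F ^ (r + 1) := by positivity
      linarith
    · have hrf : ((r + 1 : ℕ) : ℝ) ≤ f := by exact_mod_cast not_lt.1 hfr
      have h3 : (K * (f + 1)) ^ 2 ≤ n * (f + 1) := by
        calc (K * (f + 1)) ^ 2 ≤ m := hmK'
          _ ≤ n * ((r + 1 : ℕ) + 1) := hmr
          _ ≤ n * (f + 1) := by gcongr
      have h4 : K ^ 2 * (f + 1) ≤ n := by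
        refine le_of_mul_le_mul_left (a := (f : ℝ) + 1) ?_ (by positivity)
        calc ((f : ℝ) + 1) * (K ^ 2 * (f + 1)) = (K * (f + 1)) ^ 2 := by ring
          _ ≤ _ := h3
          _ = _ := mul_comm _ _
      have h5 : K ^ 2 ≤ K ^ 2 * (f + 1) := by nlinarith [sq_nonneg K]
      linarith

theorem middle_share_iff (𝒞 : Cplx → Prop) (hp : ∀ A B, 𝒞 A → 𝒞 B → 𝒞 (A.prod B))
    (hS : ∀ t : ℝ, ∃ S, 𝒞 S ∧ S.dim = 2 ∧ t ≤ S.betti 1 ∧ S.betti 0 = 0 ∧ S.betti 2 = 0) :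
    (∀ A, 𝒞 A → ∀ k, 2 * k ≠ A.dim → A.betti k = 0) ↔
      ∀ K : ℝ, ∃ (m f : ℕ) (ρ β : ℝ), K * (f + 1) ≤ ρ * √m ∧
        ∀ A, 𝒞 A → A.dim = 2 * m → β ≤ A.total →
          ρ * A.total ≤ ∑ k ∈ Finset.Icc (m - f) (m + f), A.betti k := by
  refine ⟨fun h K => ?_, fun H A hA k hk => middle_share 𝒞 hp hS H A hA k hk⟩
  obtain ⟨m, hm⟩ := exists_nat_ge (K ^ 2)
  refine ⟨m, 0, 1, 0, ?_, fun A hA hd _ => ?_⟩
  · rw [Nat.cast_zero, zero_add, mul_one, one_mul]
    exact Real.le_sqrt_of_sq_le hm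
  · rw [one_mul, Nat.sub_zero, Nat.add_zero, Finset.Icc_self, Finset.sum_singleton, total,
      Finset.sum_eq_single m]
    · intro k _ hk
      exact h A hA k (by omega)
    · intro hk
      exact absurd (Finset.mem_range.2 (by omega)) hk

end Pool.Agent.Run7.h604.HK.Cplx
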