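import Pool.Agent.Run7.h604.HK.Laws

/-!
# Power laws for the Euler characteristic and for the degrees above the middle
-/

set_option autoImplicit false

open Polynomial

noncomputable section

namespace Pool.Agent.Run7.h604.HK.Cplx

theorem mass_nonneg (A : Cplx) : 0 ≤ A.mass :=
  Finset.sum_nonneg fun x _ => div_nonneg zero_le_one (A.ord_pos x).le

theorem abs_euler_le_mass (A : Cplx) : |A.euler| ≤ A.mass := by
  rw [euler, mass]
  refine (Finset.abs_sum_le_sum_abs _ _).trans (Finset.sum_le_sum fun x _ => ?_)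
  rw [abs_div, abs_pow, abs_neg, abs_one, one_pow, abs_of_pos (A.ord_pos x)]

/-- In dimension zero the Euler characteristic is at least the total Betti number. -/
theorem total_le_euler_of_dim (A : Cplx) (h : A.dim = 0) : A.total ≤ A.euler := by
  refine A.total_le_mass.trans (le_of_eq ?_)
  rw [mass, euler]
  refine Finset.sum_congr rfl fun x _ => ?_
  have : A.deg x = 0 := by
    have := A.deg_le x
    omega
  rw [this, pow_zero]

theorem exists_split {n m : ℕ} (hn : 1 ≤ n) (hm : n + 1 ≤ m) :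
    ∃ r j : ℕ, m = (r + 1) * n + (j + 1) ∧ j < n := by
  have h1 : 1 ≤ (m - 1) / n := (Nat.one_le_div_iff (by omega)).2 (by omega)
  obtain ⟨r, hr⟩ := Nat.exists_eq_add_of_le h1
  refine ⟨r, (m - 1) % n, ?_, Nat.mod_lt _ (by omega)⟩
  have h2 := Nat.div_add_mod (m - 1) n
  rw [hr] at h2
  have h3 : (r + 1) * n = n * (1 + r) := by ring
  rw [h3]
  omega

/-- If `a * s ^ j ≤ b * s ^ j + c` for arbitrarily large `s` then `a ≤ b`. -/
theorem le_of_large {a b c : ℝ} {j : ℕ}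
    (h : ∀ t : ℝ, ∃ s : ℝ, t ≤ s ∧ a * s ^ (j + 1) ≤ b * s ^ (j + 1) + c) : a ≤ b := by
  by_contra hab
  have hab' : 0 < a - b := by linarith [not_le.1 hab]
  obtain ⟨s, hs, h1⟩ := h (max 1 ((|c| + 1) / (a - b)))
  have hs1 : (1 : ℝ) ≤ s := le_trans (le_max_left _ _) hs
  have hs2 : (|c| + 1) / (a - b) ≤ s := le_trans (le_max_right _ _) hs
  rw [div_le_iff₀ hab'] at hs2
  have h3 : s ≤ s ^ (j + 1) := le_self_pow₀ hs1 (by omega)
  have h4 : s * (a - b) ≤ s ^ (j + 1) * (a - b) := mul_le_mul_of_nonneg_right h3 hab'.le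
  have h5 : c ≤ |c| := le_abs_self c
  nlinarith

/-- The case of Euler characteristic zero. -/
theorem euler_zero_law (𝒞 : Cplx → Prop) (hp : ∀ A B, 𝒞 A → 𝒞 B → 𝒞 (A.prod B))
    (hS : ∀ t : ℝ, ∃ S, 𝒞 S ∧ S.dim = 2 ∧ t ≤ S.total ∧ |S.euler| ≤ S.total)
    (H : ∀ N : ℕ, ∃ m ≥ N, ∃ β : ℝ, ∀ A, 𝒞 A → A.dim = 2 * m → A.euler = 0 → A.total ≤ β)
    (A : Cplx) (hA : 𝒞 A) (h0 : A.euler = 0) (k : ℕ) : A.betti k = 0 := by
  obtain ⟨m, hm, β, hβ⟩ := H (A.dim + 1)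
  obtain ⟨j, hj⟩ := Nat.exists_eq_add_of_le hm
  have hle : A.total ^ 2 ≤ 0 := by
    apply le_of_large (c := β) (j := j)
    intro t
    obtain ⟨S, hSC, hSd, hSt, -⟩ := hS t
    refine ⟨S.total, hSt, ?_⟩
    have hd : (A.prod A).dim = 2 * A.dim := by rw [prod_dim]; ring
    obtain ⟨B, hBC, hBd, -, hBt, hBe, -⟩ := mix hp (hp _ _ hA hA) hSC hSd hd 0 j
    have h := hβ B hBC (by rw [hBd, hj]; ring) (by rw [hBe, euler_prod, h0]; simp)
    rw [hBt, total_prod] at h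
    calc A.total ^ 2 * S.total ^ (j + 1) = (A.total * A.total) ^ (0 + 1) * S.total ^ (j + 1) := by
          ring
      _ ≤ β := h
      _ = _ := by ring
  have h1 : A.total = 0 := by
    have := sq_nonneg A.total
    exact pow_eq_zero_iff (two_ne_zero) |>.1 (le_antisymm hle this)
  exact le_antisymm (h1 ▸ A.betti_le_total k) (A.betti_nonneg k)

/-- Subexponential bounds for the Euler characteristic improve themselves. -/
theorem euler_law (𝒞 : Cplx → Prop) (hp : ∀ A B, 𝒞 A → 𝒞 B → 𝒞 (A.prod B))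
    (hS : ∀ t : ℝ, ∃ S, 𝒞 S ∧ S.dim = 2 ∧ t ≤ S.total ∧ |S.euler| ≤ S.total)
    (H : ∀ δ : ℝ, 0 < δ → ∀ N : ℕ, ∃ m ≥ N, ∃ β : ℝ, ∀ A, 𝒞 A → A.dim = 2 * m →
      Real.exp (-(δ * m)) * (A.total - β) ≤ |A.euler|)
    (A : Cplx) (hA : 𝒞 A) : A.total ≤ |A.euler| := by
  by_cases hd0 : A.dim = 0
  · exact (A.total_le_euler_of_dim hd0).trans (le_abs_self _)
  by_contra hlt
  rw [not_le] at hlt
  set n := A.dim with hn
  have hn1 : 1 ≤ n := by omega
  have hT : 0 < A.total := lt_of_le_of_lt (abs_nonneg _) hlt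
  set q : ℝ := (|A.euler| / A.total) ^ 2 with hq
  have hq0 : 0 ≤ q := by positivity
  have hq1 : q < 1 := by
    have h1 : |A.euler| / A.total < 1 := (div_lt_one hT).2 hlt
    have h2 : 0 ≤ |A.euler| / A.total := by positivity
    rw [hq]
    nlinarith
  set δ : ℝ := (1 - q) / (4 * n) with hδ
  have hnR : (0 : ℝ) < n := by exact_mod_cast hn1
  have hδ0 : 0 < δ := by
    have : 0 < 1 - q := by linarith
    positivity
  have hδn : 2 * n * δ = (1 - q) / 2 := by rw [hδ]; field_simp; ring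
  obtain ⟨m, hm, β, hβ⟩ := H δ hδ0 (n + 1)
  obtain ⟨r, j, hmr, hjn⟩ := exists_split hn1 hm
  have hdD : (A.prod A).dim = 2 * n := by rw [prod_dim]; ring
  have key : Real.exp (-(δ * m)) * (A.total ^ 2) ^ (r + 1) ≤ (A.euler ^ 2) ^ (r + 1) := by
    apply le_of_large (c := Real.exp (-(δ * m)) * β) (j := j)
    intro t
    obtain ⟨S, hSC, hSd, hSt, hSe⟩ := hS t
    refine ⟨S.total, hSt, ?_⟩
    obtain ⟨B, hBC, hBd, -, hBt, hBe, -⟩ := mix hp (hp _ _ hA hA) hSC hSd hdD r j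
    have h := hβ B hBC (by rw [hBd, hmr])
    rw [hBt, hBe, total_prod, euler_prod, abs_mul, abs_pow, abs_pow, abs_mul] at h
    have h2 : |S.euler| ^ (j + 1) ≤ S.total ^ (j + 1) :=
      pow_le_pow_left₀ (abs_nonneg _) hSe _
    have h3 : (|A.euler| * |A.euler|) ^ (r + 1) * |S.euler| ^ (j + 1) ≤
        (A.euler ^ 2) ^ (r + 1) * S.total ^ (j + 1) := by
      have e : |A.euler| * |A.euler| = A.euler ^ 2 := by rw [← sq, sq_abs]
      rw [e]
      exact mul_le_mul_of_nonneg_left h2 (by positivity)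
    calc Real.exp (-(δ * m)) * (A.total ^ 2) ^ (r + 1) * S.total ^ (j + 1)
        = Real.exp (-(δ * m)) * ((A.total * A.total) ^ (r + 1) * S.total ^ (j + 1) - β) +
          Real.exp (-(δ * m)) * β := by ring
      _ ≤ _ := by linarith
  have hTr : 0 < (A.total ^ 2) ^ (r + 1) := by positivity
  have h1 : Real.exp (-(δ * m)) ≤ q ^ (r + 1) := by
    have e : q ^ (r + 1) = (A.euler ^ 2) ^ (r + 1) / (A.total ^ 2) ^ (r + 1) := by
      rw [hq, div_pow, sq_abs, div_pow]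
    rw [e, le_div_iff₀ hTr]
    exact key
  have h2 : δ * m ≤ ((1 - q) / 2) * ((r : ℝ) + 1) := by
    have : m ≤ 2 * n * (r + 1) := by
      rw [hmr]
      nlinarith
    have h3 : (m : ℝ) ≤ 2 * n * (r + 1) := by exact_mod_cast this
    calc δ * m ≤ δ * (2 * n * (r + 1)) := mul_le_mul_of_nonneg_left h3 hδ0.le
      _ = (2 * n * δ) * (r + 1) := by ring
      _ = _ := by rw [hδn]
  have h3 : Real.exp (-((1 - q) / 2)) ^ (r + 1) ≤ q ^ (r + 1) := by
    rw [← Real.exp_nat_mul]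
    refine le_trans (Real.exp_le_exp.2 ?_) h1
    push_cast
    linarith
  have h4 : Real.exp (-((1 - q) / 2)) ≤ q := le_of_pow_le_pow_left₀ (by omega) hq0 h3
  have h5 : 1 - (1 - q) / 2 ≤ Real.exp (-((1 - q) / 2)) := by
    have := Real.add_one_le_exp (-((1 - q) / 2))
    linarith
  linarith

theorem euler_laws (𝒞 : Cplx → Prop) (hp : ∀ A B, 𝒞 A → 𝒞 B → 𝒞 (A.prod B))
    (hS : ∀ t : ℝ, ∃ S, 𝒞 S ∧ S.dim = 2 ∧ t ≤ S.total ∧ |S.euler| ≤ S.total) :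
    ((∀ A, 𝒞 A → A.euler = 0 → ∀ k, A.betti k = 0) ↔
      ∀ N : ℕ, ∃ m ≥ N, ∃ β : ℝ, ∀ A, 𝒞 A → A.dim = 2 * m → A.euler = 0 → A.total ≤ β) ∧
    ((∀ A, 𝒞 A → A.total ≤ |A.euler|) ↔
      ∀ δ : ℝ, 0 < δ → ∀ N : ℕ, ∃ m ≥ N, ∃ β : ℝ, ∀ A, 𝒞 A → A.dim = 2 * m →
        Real.exp (-(δ * m)) * (A.total - β) ≤ |A.euler|) := by
  refine ⟨⟨fun h N => ⟨N, le_rfl, 0, fun A hA _ h0 => ?_⟩, fun H A hA h0 k =>
    euler_zero_law 𝒞 hp hS H A hA h0 k⟩, ⟨fun h δ hδ N => ⟨N, le_rfl, 0, fun A hA _ => ?_⟩,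
    fun H A hA => euler_law 𝒞 hp hS H A hA⟩⟩
  · rw [total, Finset.sum_eq_zero]
    intro k _
    exact h A hA h0 k
  · rw [sub_zero]
    refine le_trans ?_ (h A hA)
    have h1 : Real.exp (-(δ * N)) ≤ 1 := by
      rw [Real.exp_le_one_iff]
      have : 0 ≤ δ * (N : ℝ) := by positivity
      linarith
    have h2 := A.total_nonneg
    nlinarith

/-! ### the degrees above the middle -/

theorem mix_s {𝒞 : Cplx → Prop} (hp : ∀ A B, 𝒞 A → 𝒞 B → 𝒞 (A.prod B))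
    (s : Cplx → ℝ) (hs0 : ∀ A, 𝒞 A → 0 ≤ s A)
    (hs : ∀ A B, 𝒞 A → 𝒞 B → s (A.prod B) ≤ s A * s B) {A S : Cplx} (hA : 𝒞 A)
    (hS : 𝒞 S) (hd : S.dim = 2) {n : ℕ} (hn : A.dim = 2 * n) (r j : ℕ) :
    ∃ B, 𝒞 B ∧ B.dim = 2 * ((r + 1) * n + (j + 1)) ∧ B.pol = A.pol ^ (r + 1) * S.pol ^ (j + 1) ∧
      s B ≤ s A ^ (r + 1) * s S ^ (j + 1) := by
  have hpw : ∀ D, 𝒞 D → ∀ l : ℕ, s (D.pw l) ≤ s D ^ (l + 1) := by
    intro D hD l
    induction l with
    | zero => simp [pw]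
    | succ l ih =>
      rw [pw, pow_succ _ (l + 1)]
      exact (hs _ _ (pw_mem hp hD l) hD).trans (mul_le_mul_of_nonneg_right ih (hs0 D hD))
  refine ⟨(A.pw r).prod (S.pw j), hp _ _ (pw_mem hp hA r) (pw_mem hp hS j), ?_, ?_, ?_⟩
  · rw [prod_dim, pw_dim, pw_dim, hd, hn]
    ring
  · rw [pol_prod, pw_pol, pw_pol]
  · refine (hs _ _ (pw_mem hp hA r) (pw_mem hp hS j)).trans ?_
    exact mul_le_mul (hpw A hA r) (hpw S hS j) (hs0 _ (pw_mem hp hS j))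
      (pow_nonneg (hs0 A hA) _)

theorem above_middle (𝒞 : Cplx → Prop) (hp : ∀ A B, 𝒞 A → 𝒞 B → 𝒞 (A.prod B))
    (s : Cplx → ℝ) (hs0 : ∀ A, 𝒞 A → 0 ≤ s A)
    (hs : ∀ A B, 𝒞 A → 𝒞 B → s (A.prod B) ≤ s A * s B) (c : ℝ)
    (hS : ∀ t : ℝ, ∃ S, 𝒞 S ∧ S.dim = 2 ∧ t ≤ S.betti 1 ∧ s S ≤ c * S.betti 1)
    (H : ∀ ε : ℝ, 0 < ε → ∀ N : ℕ, ∃ m ≥ N, ∃ β : ℝ, ∀ A, 𝒞 A → A.dim = 2 * m →
      ∀ k : ℕ, (1 + ε) * m ≤ k → A.betti k ≤ ε ^ m * s A + β)
    (A : Cplx) (hA : 𝒞 A) (k : ℕ) (hk : A.dim < 2 * k) : A.betti k = 0 := by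
  by_contra hne
  have hb : 0 < A.betti k := lt_of_le_of_ne (A.betti_nonneg k) (Ne.symm hne)
  have hkd : k ≤ A.dim := by
    by_contra h
    exact hne (A.betti_eq_zero (by omega))
  set n := A.dim with hn
  have hn1 : 1 ≤ n := by omega
  have hnR : (0 : ℝ) < n := by exact_mod_cast hn1
  set b : ℝ := A.betti k with hbdef
  set μ : ℝ := s A + 1 with hμdef
  have hμ : 0 < μ := by
    have := hs0 A hA
    linarith
  obtain ⟨C, hC1, hcC⟩ : ∃ C : ℝ, 1 ≤ C ∧ c ≤ C := ⟨max 1 c, le_max_left _ _, le_max_right _ _⟩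
  have hC0 : 0 < C := by linarith
  -- the choice of `ε`
  set ε : ℝ := min (1 / (2 * n)) (min 1 (b ^ 2 / (μ ^ 2 * C ^ n) / 2)) with hε
  have hε0 : 0 < ε := by
    refine lt_min (by positivity) (lt_min one_pos (by positivity))
  have hε1 : ε ≤ 1 / (2 * n) := min_le_left _ _
  have hε2 : ε ≤ 1 := (min_le_right _ _).trans (min_le_left _ _)
  have hε3 : ε * (μ ^ 2 * C ^ n) < b ^ 2 := by
    have h1 : ε ≤ b ^ 2 / (μ ^ 2 * C ^ n) / 2 := (min_le_right _ _).trans (min_le_right _ _)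
    have h2 : 0 < μ ^ 2 * C ^ n := by positivity
    have h3 : ε * (μ ^ 2 * C ^ n) ≤ b ^ 2 / 2 := by
      calc ε * (μ ^ 2 * C ^ n) ≤ b ^ 2 / (μ ^ 2 * C ^ n) / 2 * (μ ^ 2 * C ^ n) :=
            mul_le_mul_of_nonneg_right h1 h2.le
        _ = b ^ 2 / 2 := by field_simp
    have h4 : 0 < b ^ 2 := by positivity
    linarith
  obtain ⟨m, hm, β, hβ⟩ := H ε hε0 (n + 1)
  obtain ⟨r, j, hmr, hjn⟩ := exists_split hn1 hm
  have hdD : (A.prod A).dim = 2 * n := by rw [prod_dim]; ring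
  -- lower bounds for coefficients of products
  have hco : ∀ (P Q : ℝ[X]), NN P → NN Q → ∀ i l : ℕ,
      P.coeff i * Q.coeff l ≤ (P * Q).coeff (i + l) := by
    intro P Q hP hQ i l
    rw [coeff_mul]
    exact Finset.single_le_sum
      (f := fun x : ℕ × ℕ => P.coeff x.1 * Q.coeff x.2)
      (s := Finset.HasAntidiagonal.antidiagonal (i + l)) (fun x _ => mul_nonneg (hP _) (hQ _))
      (show (i, l) ∈ Finset.HasAntidiagonal.antidiagonal (i + l) by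
        rw [Finset.HasAntidiagonal.mem_antidiagonal])
  have hpw : ∀ (P : ℝ[X]), NN P → ∀ i l : ℕ, P.coeff i ^ (l + 1) ≤ (P ^ (l + 1)).coeff (i * (l + 1)) := by
    intro P hP i l
    induction l with
    | zero => simp
    | succ l ih =>
      have h1 := hco (P ^ (l + 1)) P (hP.pow _) hP (i * (l + 1)) i
      have e : i * (l + 1) + i = i * (l + 1 + 1) := by ring
      rw [e, ← pow_succ] at h1
      refine le_trans ?_ h1
      rw [pow_succ]
      exact mul_le_mul_of_nonneg_right ih (hP i)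
  have key : (b ^ 2) ^ (r + 1) ≤ ε ^ m * ((μ ^ 2) ^ (r + 1) * C ^ (j + 1)) := by
    apply le_of_large (c := β) (j := j)
    intro t
    obtain ⟨S, hSC, hSd, hSt, hSm⟩ := hS (max t 0)
    have hs0' : 0 ≤ S.betti 1 := S.betti_nonneg 1
    refine ⟨S.betti 1, (le_max_left _ _).trans hSt, ?_⟩
    obtain ⟨B, hBC, hBd, hBp, hBm⟩ := mix_s hp s hs0 hs (hp _ _ hA hA) hSC hSd hdD r j
    have hdeg : (1 + ε) * m ≤ ((2 * k * (r + 1) + (j + 1) : ℕ) : ℝ) := by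
      have h1 : m + (r + 1) ≤ 2 * k * (r + 1) + (j + 1) := by
        have : (n + 1) * (r + 1) ≤ 2 * k * (r + 1) := Nat.mul_le_mul_right _ (by omega)
        have e : (n + 1) * (r + 1) = (r + 1) * n + (r + 1) := by ring
        omega
      have h2 : ((m : ℝ) + (r + 1)) ≤ ((2 * k * (r + 1) + (j + 1) : ℕ) : ℝ) := by
        exact_mod_cast h1
      have h3 : (m : ℝ) ≤ 2 * n * (r + 1) := by
        have : m ≤ 2 * n * (r + 1) := by
          rw [hmr]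
          nlinarith
        exact_mod_cast this
      have h4 : ε * m ≤ r + 1 := by
        calc ε * m ≤ 1 / (2 * n) * (2 * n * (r + 1)) := by
              apply mul_le_mul hε1 h3 (by positivity) (by positivity)
          _ = r + 1 := by field_simp
      calc (1 + ε) * m = m + ε * m := by ring
        _ ≤ m + (r + 1) := by linarith
        _ ≤ _ := h2
    have h := hβ B hBC (by rw [hBd, hmr]) _ hdeg
    rw [← coeff_pol, hBp] at h
    have h5 : (b ^ 2) ^ (r + 1) * S.betti 1 ^ (j + 1) ≤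
        ((A.prod A).pol ^ (r + 1) * S.pol ^ (j + 1)).coeff (2 * k * (r + 1) + (j + 1)) := by
      have e1 : 2 * k * (r + 1) + (j + 1) = 2 * k * (r + 1) + 1 * (j + 1) := by ring
      rw [e1]
      refine le_trans ?_ (hco _ _ ((A.prod A).NN_pol.pow _) (S.NN_pol.pow _) _ _)
      have h6 : b ^ 2 ≤ (A.prod A).pol.coeff (2 * k) := by
        rw [pol_prod, two_mul]
        refine le_trans (le_of_eq ?_) (hco _ _ A.NN_pol A.NN_pol k k)
        rw [coeff_pol]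
        ring
      refine mul_le_mul ?_ ?_ (by positivity) (((A.prod A).NN_pol.pow _) _)
      · exact (pow_le_pow_left₀ (by positivity) h6 _).trans (hpw _ (A.prod A).NN_pol _ _)
      · refine le_trans (le_of_eq ?_) (hpw _ S.NN_pol 1 j)
        rw [coeff_pol]
    have h7 : s S ^ (j + 1) ≤ (C * S.betti 1) ^ (j + 1) :=
      pow_le_pow_left₀ (hs0 S hSC) (hSm.trans (mul_le_mul_of_nonneg_right hcC hs0')) _
    have h9 : s (A.prod A) ≤ μ ^ 2 := by
      refine (hs A A hA hA).trans ?_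
      have := hs0 A hA
      rw [hμdef]
      nlinarith
    have h8 : ε ^ m * s B ≤ ε ^ m * ((μ ^ 2) ^ (r + 1) * (C * S.betti 1) ^ (j + 1)) := by
      refine mul_le_mul_of_nonneg_left (hBm.trans ?_) (by positivity)
      exact mul_le_mul (pow_le_pow_left₀ (hs0 _ (hp _ _ hA hA)) h9 _) h7
        (pow_nonneg (hs0 S hSC) _) (by positivity)
    calc (b ^ 2) ^ (r + 1) * S.betti 1 ^ (j + 1) ≤ _ := h5
      _ ≤ _ := h
      _ ≤ ε ^ m * ((μ ^ 2) ^ (r + 1) * (C * S.betti 1) ^ (j + 1)) + β := by linarith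
      _ = _ := by rw [mul_pow]; ring
  have h1 : ε ^ m ≤ ε ^ (r + 1) := by
    apply pow_le_pow_of_le_one hε0.le hε2
    rw [hmr]
    nlinarith
  have h2 : C ^ (j + 1) ≤ (C ^ n) ^ (r + 1) := by
    rw [← pow_mul]
    apply pow_le_pow_right₀ hC1
    nlinarith
  have h3 : (b ^ 2) ^ (r + 1) ≤ (ε * (μ ^ 2 * C ^ n)) ^ (r + 1) := by
    calc (b ^ 2) ^ (r + 1) ≤ _ := key
      _ ≤ ε ^ (r + 1) * ((μ ^ 2) ^ (r + 1) * (C ^ n) ^ (r + 1)) := by gcongr
      _ = _ := by rw [mul_pow, mul_pow]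
  have h4 := lt_of_pow_lt_pow_left₀ (r + 1) (by positivity)
    (lt_of_le_of_lt h3 (pow_lt_pow_left₀ hε3 (by positivity) (by omega)))
  exact lt_irrefl _ h4

theorem above_middle_iff (𝒞 : Cplx → Prop) (hp : ∀ A B, 𝒞 A → 𝒞 B → 𝒞 (A.prod B))
    (s : Cplx → ℝ) (hs0 : ∀ A, 𝒞 A → 0 ≤ s A)
    (hs : ∀ A B, 𝒞 A → 𝒞 B → s (A.prod B) ≤ s A * s B) (c : ℝ)
    (hS : ∀ t : ℝ, ∃ S, 𝒞 S ∧ S.dim = 2 ∧ t ≤ S.betti 1 ∧ s S ≤ c * S.betti 1) :
    (∀ A, 𝒞 A → ∀ k, A.dim < 2 * k → A.betti k = 0) ↔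
      ∀ ε : ℝ, 0 < ε → ∀ N : ℕ, ∃ m ≥ N, ∃ β : ℝ, ∀ A, 𝒞 A → A.dim = 2 * m →
        ∀ k : ℕ, (1 + ε) * m ≤ k → A.betti k ≤ ε ^ m * s A + β := by
  refine ⟨fun h ε hε N => ⟨N + 1, by omega, 0, fun A hA hd k hk => ?_⟩,
    fun H A hA k hk => above_middle 𝒞 hp s hs0 hs c hS H A hA k hk⟩
  have hk' : A.dim < 2 * k := by
    have h1 : ((N + 1 : ℕ) : ℝ) < k := by
      refine lt_of_lt_of_le ?_ hk
      have : (0 : ℝ) < ((N + 1 : ℕ) : ℝ) := by positivity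
      nlinarith
    have h2 : N + 1 < k := by exact_mod_cast h1
    omega
  rw [h A hA k hk', add_zero]
  exact mul_nonneg (by positivity) (hs0 A hA)

end Pool.Agent.Run7.h604.HK.Cplx
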