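import Pool.Agent.Run7.h604.HK.Laws2

/-!
# Power laws for the sign of the Euler characteristic
-/

set_option autoImplicit false

noncomputable section

namespace Pool.Agent.Run7.h604.HK.Cplx

/-- The sign law, for a multiplicative lower quantity. `A` of dimension `2 n`, an odd number
`2 r + 1` of factors `A` and `j + 1` surfaces. -/
theorem odd_split {n m : ℕ} (hn : 1 ≤ n) (hm : n + 1 ≤ m) :
    ∃ r j : ℕ, m = (2 * r + 1) * n + (j + 1) ∧ j < 2 * n := by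
  refine ⟨(m - n - 1) / (2 * n), (m - n - 1) % (2 * n), ?_, Nat.mod_lt _ (by omega)⟩
  have h2 := Nat.div_add_mod (m - n - 1) (2 * n)
  have h3 : (2 * ((m - n - 1) / (2 * n)) + 1) * n = 2 * n * ((m - n - 1) / (2 * n)) + n := by ring
  rw [h3]
  omega

theorem neg_one_pow_split (n r j : ℕ) :
    (-1 : ℝ) ^ ((2 * r + 1) * n + (j + 1)) = ((-1) ^ n) ^ (2 * r + 1) * (-1) ^ (j + 1) := by
  rw [pow_add, ← pow_mul, mul_comm n]

/-- The members of the class of even dimension `2 m` satisfy `- E ≤ (-1) ^ m χ`: a product of an odd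
number of factors. -/
theorem sign_mix {𝒞 : Cplx → Prop} (hp : ∀ A B, 𝒞 A → 𝒞 B → 𝒞 (A.prod B)) {A S : Cplx} (hA : 𝒞 A)
    (hS : 𝒞 S) (hd : S.dim = 2) {n : ℕ} (hn : A.dim = 2 * n) (r j : ℕ) :
    ∃ B, 𝒞 B ∧ B.dim = 2 * ((2 * r + 1) * n + (j + 1)) ∧
      B.total = A.total ^ (2 * r + 1) * S.total ^ (j + 1) ∧
      B.mass = A.mass ^ (2 * r + 1) * S.mass ^ (j + 1) ∧
      (-1 : ℝ) ^ ((2 * r + 1) * n + (j + 1)) * B.euler =
        ((-1) ^ n * A.euler) ^ (2 * r + 1) * (-S.euler) ^ (j + 1) := by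
  obtain ⟨B, hB, hBd, -, hBt, hBe, hBm⟩ := mix hp hA hS hd hn (2 * r) j
  refine ⟨B, hB, hBd, hBt, hBm, ?_⟩
  rw [hBe, neg_one_pow_split, mul_pow, neg_pow S.euler]
  ring

theorem euler_dim_zero (A : Cplx) (h : A.dim = 0) : A.euler = A.mass := by
  rw [mass, euler]
  refine Finset.sum_congr rfl fun x _ => ?_
  have : A.deg x = 0 := by
    have := A.deg_le x
    omega
  rw [this, pow_zero]

theorem sign_law (𝒞 : Cplx → Prop) (hp : ∀ A B, 𝒞 A → 𝒞 B → 𝒞 (A.prod B))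
    (hS : ∀ t : ℝ, ∃ S, 𝒞 S ∧ S.dim = 2 ∧ t ≤ -S.euler ∧ S.mass ≤ 3 * -S.euler)
    (H : ∀ ε : ℝ, 0 < ε → ∀ N : ℕ, ∃ m ≥ N, ∃ β : ℝ, ∀ A, 𝒞 A → A.dim = 2 * m →
      -(ε ^ m * A.mass + β) ≤ (-1) ^ m * A.euler)
    (n : ℕ) (A : Cplx) (hA : 𝒞 A) (hAd : A.dim = 2 * n) : 0 ≤ (-1) ^ n * A.euler := by
  rcases Nat.eq_zero_or_pos n with rfl | hn
  · rw [pow_zero, one_mul, A.euler_dim_zero (by omega)]
    exact A.mass_nonneg
  by_contra hneg
  rw [not_le] at hneg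
  set a : ℝ := -((-1) ^ n * A.euler) with ha
  have ha0 : 0 < a := by rw [ha]; linarith
  have hae : (-1) ^ n * A.euler = -a := by rw [ha]; ring
  set μ : ℝ := A.mass + 1 with hμ
  have hμ0 : 0 < μ := by
    have := A.mass_nonneg
    rw [hμ]
    linarith
  set ε : ℝ := min 1 (a / (μ * 3 ^ (2 * n)) / 2) with hε
  have hε0 : 0 < ε := lt_min one_pos (by positivity)
  have hε1 : ε ≤ 1 := min_le_left _ _
  have hε2 : ε * (μ * 3 ^ (2 * n)) < a := by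
    have h1 : ε ≤ a / (μ * 3 ^ (2 * n)) / 2 := min_le_right _ _
    have h2 : 0 < μ * 3 ^ (2 * n) := by positivity
    have h3 : ε * (μ * 3 ^ (2 * n)) ≤ a / 2 := by
      calc ε * (μ * 3 ^ (2 * n)) ≤ a / (μ * 3 ^ (2 * n)) / 2 * (μ * 3 ^ (2 * n)) :=
            mul_le_mul_of_nonneg_right h1 h2.le
        _ = a / 2 := by field_simp
    linarith
  obtain ⟨m, hm, β, hβ⟩ := H ε hε0 (n + 1)
  obtain ⟨r, j, hmr, hjn⟩ := odd_split hn hm
  have key : a ^ (2 * r + 1) ≤ ε ^ m * (μ ^ (2 * r + 1) * 3 ^ (j + 1)) := by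
    apply le_of_large (c := β) (j := j)
    intro t
    obtain ⟨S, hSC, hSd, hSt, hSm⟩ := hS (max t 0)
    have hs0 : 0 ≤ -S.euler := (le_max_right _ _).trans hSt
    refine ⟨-S.euler, (le_max_left _ _).trans hSt, ?_⟩
    obtain ⟨B, hBC, hBd, -, hBm, hBe⟩ := sign_mix hp hA hSC hSd hAd r j
    have h := hβ B hBC (by rw [hBd, hmr])
    rw [hmr] at h
    rw [hBe, hae, ← hmr, Odd.neg_pow ⟨r, rfl⟩, hBm] at h
    have h7 : S.mass ^ (j + 1) ≤ (3 * -S.euler) ^ (j + 1) :=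
      pow_le_pow_left₀ S.mass_nonneg hSm _
    have h8 : A.mass ^ (2 * r + 1) ≤ μ ^ (2 * r + 1) :=
      pow_le_pow_left₀ A.mass_nonneg (by rw [hμ]; linarith) _
    have h9 : ε ^ m * (A.mass ^ (2 * r + 1) * S.mass ^ (j + 1)) ≤
        ε ^ m * (μ ^ (2 * r + 1) * (3 * -S.euler) ^ (j + 1)) := by
      refine mul_le_mul_of_nonneg_left ?_ (by positivity)
      exact mul_le_mul h8 h7 (pow_nonneg S.mass_nonneg _) (by positivity)
    have h10 : (3 * -S.euler) ^ (j + 1) = 3 ^ (j + 1) * (-S.euler) ^ (j + 1) := mul_pow _ _ _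
    rw [h10] at h9
    nlinarith
  have h1 : ε ^ m ≤ ε ^ (2 * r + 1) := by
    apply pow_le_pow_of_le_one hε0.le hε1
    rw [hmr]
    nlinarith
  have h2 : (3 : ℝ) ^ (j + 1) ≤ (3 ^ (2 * n)) ^ (2 * r + 1) := by
    rw [← pow_mul]
    apply pow_le_pow_right₀ (by norm_num)
    nlinarith
  have h3 : a ^ (2 * r + 1) ≤ (ε * (μ * 3 ^ (2 * n))) ^ (2 * r + 1) := by
    calc a ^ (2 * r + 1) ≤ _ := key
      _ ≤ ε ^ (2 * r + 1) * (μ ^ (2 * r + 1) * (3 ^ (2 * n)) ^ (2 * r + 1)) := by gcongr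
      _ = _ := by rw [mul_pow, mul_pow]
  have h4 := lt_of_pow_lt_pow_left₀ (2 * r + 1) (by positivity)
    (lt_of_le_of_lt h3 (pow_lt_pow_left₀ hε2 (by positivity) (by omega)))
  exact lt_irrefl _ h4

theorem strong_sign_law (𝒞 : Cplx → Prop) (hp : ∀ A B, 𝒞 A → 𝒞 B → 𝒞 (A.prod B))
    (hS : ∀ t : ℝ, ∃ S, 𝒞 S ∧ S.dim = 2 ∧ t ≤ -S.euler ∧ -S.euler ≤ S.total)
    (H : ∀ δ : ℝ, 0 < δ → ∀ N : ℕ, ∃ m ≥ N, ∃ β : ℝ, ∀ A, 𝒞 A → A.dim = 2 * m →
      Real.exp (-(δ * m)) * (A.total - β) ≤ (-1) ^ m * A.euler)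
    (n : ℕ) (A : Cplx) (hA : 𝒞 A) (hAd : A.dim = 2 * n) : A.total ≤ (-1) ^ n * A.euler := by
  rcases Nat.eq_zero_or_pos n with rfl | hn
  · rw [pow_zero, one_mul]
    exact A.total_le_euler_of_dim (by omega)
  by_contra hlt
  rw [not_le] at hlt
  set v : ℝ := (-1) ^ n * A.euler with hv
  have hT0 : 0 ≤ A.total := A.total_nonneg
  -- the key inequality
  have key : ∀ δ : ℝ, 0 < δ → ∃ r : ℕ,
      Real.exp (-(3 * n * δ)) ^ (2 * r + 1) * A.total ^ (2 * r + 1) ≤ v ^ (2 * r + 1) := by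
    intro δ hδ
    obtain ⟨m, hm, β, hβ⟩ := H δ hδ (n + 1)
    obtain ⟨r, j, hmr, hjn⟩ := odd_split hn hm
    refine ⟨r, ?_⟩
    have h1 : Real.exp (-(δ * m)) * A.total ^ (2 * r + 1) ≤ v ^ (2 * r + 1) := by
      apply le_of_large (c := Real.exp (-(δ * m)) * β) (j := j)
      intro t
      obtain ⟨S, hSC, hSd, hSt, hSe⟩ := hS (max t 0)
      have hs0 : 0 ≤ -S.euler := (le_max_right _ _).trans hSt
      refine ⟨-S.euler, (le_max_left _ _).trans hSt, ?_⟩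
      obtain ⟨B, hBC, hBd, hBt, -, hBe⟩ := sign_mix hp hA hSC hSd hAd r j
      have h := hβ B hBC (by rw [hBd, hmr])
      have e : (-1 : ℝ) ^ m * B.euler = v ^ (2 * r + 1) * (-S.euler) ^ (j + 1) := by
        rw [hmr, hBe]
      rw [e, hBt] at h
      have h2 : (-S.euler) ^ (j + 1) ≤ S.total ^ (j + 1) := pow_le_pow_left₀ hs0 hSe _
      have h3 : Real.exp (-(δ * m)) * (A.total ^ (2 * r + 1) * (-S.euler) ^ (j + 1)) ≤
          Real.exp (-(δ * m)) * (A.total ^ (2 * r + 1) * S.total ^ (j + 1)) := by gcongr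
      nlinarith
    refine le_trans ?_ h1
    refine mul_le_mul_of_nonneg_right ?_ (by positivity)
    rw [← Real.exp_nat_mul]
    apply Real.exp_le_exp.2
    have h3 : (m : ℝ) ≤ 3 * n * (2 * r + 1) := by
      have : m ≤ 3 * n * (2 * r + 1) := by
        rw [hmr]
        nlinarith
      exact_mod_cast this
    have h4 : δ * m ≤ δ * (3 * n * (2 * r + 1)) := mul_le_mul_of_nonneg_left h3 hδ.le
    push_cast
    nlinarith
  rcases le_or_gt v 0 with hv0 | hv0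
  · obtain ⟨r, hr⟩ := key 1 one_pos
    have h1 : v ^ (2 * r + 1) ≤ 0 := Odd.pow_nonpos ⟨r, rfl⟩ hv0
    have h2 : 0 ≤ Real.exp (-(3 * n * 1)) ^ (2 * r + 1) * A.total ^ (2 * r + 1) := by positivity
    have h3 : v ^ (2 * r + 1) = 0 := le_antisymm h1 (h2.trans hr)
    have h4 : v = 0 := pow_eq_zero_iff (by omega) |>.1 h3
    rw [h3] at hr
    have h5 : Real.exp (-(3 * n * 1)) ^ (2 * r + 1) * A.total ^ (2 * r + 1) = 0 :=
      le_antisymm hr h2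
    have h6 : A.total ^ (2 * r + 1) = 0 := by
      rcases mul_eq_zero.1 h5 with h | h
      · exact absurd h (by positivity)
      · exact h
    have h7 : A.total = 0 := pow_eq_zero_iff (by omega) |>.1 h6
    linarith
  · have hT : 0 < A.total := by linarith
    set q : ℝ := v / A.total with hq
    have hq0 : 0 < q := by positivity
    have hq1 : q < 1 := (div_lt_one hT).2 hlt
    have hnR : (0 : ℝ) < n := by exact_mod_cast hn
    set δ : ℝ := (1 - q) / (6 * n) with hδ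
    have hδ0 : 0 < δ := by
      have : 0 < 1 - q := by linarith
      positivity
    have hδn : 3 * n * δ = (1 - q) / 2 := by rw [hδ]; field_simp; ring
    obtain ⟨r, hr⟩ := key δ hδ0
    rw [hδn] at hr
    have h1 : Real.exp (-((1 - q) / 2)) ^ (2 * r + 1) ≤ q ^ (2 * r + 1) := by
      rw [hq, div_pow, le_div_iff₀ (by positivity)]
      exact hr
    have h2 : Real.exp (-((1 - q) / 2)) ≤ q := le_of_pow_le_pow_left₀ (by omega) hq0.le h1
    have h3 : 1 - (1 - q) / 2 ≤ Real.exp (-((1 - q) / 2)) := by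
      have := Real.add_one_le_exp (-((1 - q) / 2))
      linarith
    linarith

theorem sign_laws (𝒞 : Cplx → Prop) (hp : ∀ A B, 𝒞 A → 𝒞 B → 𝒞 (A.prod B))
    (hS : ∀ t : ℝ, ∃ S, 𝒞 S ∧ S.dim = 2 ∧ t ≤ -S.euler ∧ S.mass ≤ 3 * -S.euler ∧
      -S.euler ≤ S.total) :
    ((∀ n A, 𝒞 A → A.dim = 2 * n → 0 ≤ (-1) ^ n * A.euler) ↔
      ∀ ε : ℝ, 0 < ε → ∀ N : ℕ, ∃ m ≥ N, ∃ β : ℝ, ∀ A, 𝒞 A → A.dim = 2 * m →
        -(ε ^ m * A.mass + β) ≤ (-1) ^ m * A.euler) ∧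
    ((∀ n A, 𝒞 A → A.dim = 2 * n → A.total ≤ (-1) ^ n * A.euler) ↔
      ∀ δ : ℝ, 0 < δ → ∀ N : ℕ, ∃ m ≥ N, ∃ β : ℝ, ∀ A, 𝒞 A → A.dim = 2 * m →
        Real.exp (-(δ * m)) * (A.total - β) ≤ (-1) ^ m * A.euler) := by
  refine ⟨⟨fun h ε hε N => ⟨N, le_rfl, 0, fun A hA hd => ?_⟩, fun H n A hA hd =>
    sign_law 𝒞 hp (fun t => ?_) H n A hA hd⟩, ⟨fun h δ hδ N => ⟨N, le_rfl, 0, fun A hA hd => ?_⟩,
    fun H n A hA hd => strong_sign_law 𝒞 hp (fun t => ?_) H n A hA hd⟩⟩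
  · refine le_trans ?_ (h N A hA hd)
    have := mul_nonneg (pow_nonneg hε.le N) A.mass_nonneg
    linarith
  · obtain ⟨S, h1, h2, h3, h4, -⟩ := hS t
    exact ⟨S, h1, h2, h3, h4⟩
  · rw [sub_zero]
    refine le_trans ?_ (h N A hA hd)
    have h1 : Real.exp (-(δ * N)) ≤ 1 := by
      rw [Real.exp_le_one_iff]
      have : 0 ≤ δ * (N : ℝ) := by positivity
      linarith
    have h2 := A.total_nonneg
    nlinarith
  · obtain ⟨S, h1, h2, h3, -, h4⟩ := hS t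
    exact ⟨S, h1, h2, h3, h4⟩

end Pool.Agent.Run7.h604.HK.Cplx
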