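import Pool.Agent.Run7.h604.HK.Basic

/-!
# The boundary operator of a product and its harmonic chains
-/

set_option autoImplicit false

open scoped ENNReal InnerProductSpace
open ContinuousLinearMap (adjoint)

noncomputable section

namespace Pool.Agent.Run7.h604.HK

variable {X Y : Type}

/-! ### the sign operator -/

theorem mem_sg (deg : X → ℕ) (F : L2 X) : Memℓp (fun x => (-1) ^ deg x * F x) 2 :=
  mem_two.2 (by simpa using summable_sq F)

/-- Multiplication by `(-1) ^ deg`. -/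
def sgf (deg : X → ℕ) (F : L2 X) : L2 X := ⟨fun x => (-1) ^ deg x * F x, mem_sg deg F⟩

theorem sgf_add (deg : X → ℕ) (F F' : L2 X) : sgf deg (F + F') = sgf deg F + sgf deg F' := by
  ext x
  change (-1) ^ deg x * (F x + F' x) = (-1) ^ deg x * F x + (-1) ^ deg x * F' x
  ring

theorem sgf_smul (deg : X → ℕ) (c : ℂ) (F : L2 X) :
    sgf deg (c • F) = (RingHom.id ℂ) c • sgf deg F := by
  ext x
  change (-1) ^ deg x * (c * F x) = c * ((-1) ^ deg x * F x)
  ring

theorem norm_sgf (deg : X → ℕ) (F : L2 X) : ‖sgf deg F‖ ≤ 1 * ‖F‖ := by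
  have h : ‖sgf deg F‖ ^ 2 = ‖F‖ ^ 2 := by
    rw [norm_sq, norm_sq]
    refine tsum_congr fun x => ?_
    change ‖(-1) ^ deg x * F x‖ ^ 2 = _
    simp
  rw [one_mul]
  exact ((sq_eq_sq₀ (norm_nonneg _) (norm_nonneg _)).1 h).le

/-- Multiplication by `(-1) ^ deg`. -/
def sg (deg : X → ℕ) : L2 X →L[ℂ] L2 X :=
  LinearMap.mkContinuous
    { toFun := sgf deg
      map_add' := sgf_add deg
      map_smul' := sgf_smul deg }
    1 (norm_sgf deg)

@[simp] theorem sg_apply (deg : X → ℕ) (F : L2 X) (x : X) : sg deg F x = (-1) ^ deg x * F x := rfl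

theorem sg_sg (deg : X → ℕ) (F : L2 X) : sg deg (sg deg F) = F := by
  ext x
  rw [sg_apply, sg_apply, ← mul_assoc, ← mul_pow]
  simp

theorem sg_comp (deg : X → ℕ) : (sg deg).comp (sg deg) = ContinuousLinearMap.id ℂ (L2 X) := by
  ext1 F
  exact sg_sg deg F

theorem norm_sg (deg : X → ℕ) (F : L2 X) : ‖sg deg F‖ = ‖F‖ := by
  have h : ‖sg deg F‖ ^ 2 = ‖F‖ ^ 2 := by
    rw [norm_sq, norm_sq]
    refine tsum_congr fun x => ?_
    rw [sg_apply]
    simp
  exact (sq_eq_sq₀ (norm_nonneg _) (norm_nonneg _)).1 h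

theorem adjoint_sg (deg : X → ℕ) : adjoint (sg deg) = sg deg := by
  symm
  rw [ContinuousLinearMap.eq_adjoint_iff]
  intro F F'
  rw [lp.inner_eq_tsum, lp.inner_eq_tsum]
  refine tsum_congr fun x => ?_
  rw [sg_apply, sg_apply]
  simp only [RCLike.inner_apply, map_mul, map_pow, map_neg, map_one]
  ring

theorem sg_dl (deg : X → ℕ) (x : X) : sg deg (dl x) = (-1 : ℂ) ^ deg x • dl x := by
  ext y
  change (-1) ^ deg y * dl x y = (-1) ^ deg x * dl x y
  by_cases h : y = x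
  · rw [h]
  · rw [dl_ne h, mul_zero, mul_zero]

theorem d_sg (deg : X → ℕ) (d : L2 X →L[ℂ] L2 X)
    (hd : ∀ x y, d (dl x) y ≠ 0 → deg x = deg y + 1) : d.comp (sg deg) = -(sg deg).comp d := by
  apply clm_ext
  intro x
  rw [ContinuousLinearMap.comp_apply, neg_apply,
    ContinuousLinearMap.comp_apply, sg_dl, map_smul]
  ext y
  change (-1) ^ deg x * d (dl x) y = - ((-1) ^ deg y * d (dl x) y)
  by_cases h : d (dl x) y = 0
  · rw [h]
    simp
  · rw [hd x y h, pow_succ]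
    ring

theorem sg_adj (deg : X → ℕ) (d : L2 X →L[ℂ] L2 X)
    (hd : ∀ x y, d (dl x) y ≠ 0 → deg x = deg y + 1) :
    (sg deg).comp (adjoint d) = -(adjoint d).comp (sg deg) := by
  have h := congrArg adjoint (d_sg deg d hd)
  rw [ContinuousLinearMap.adjoint_comp, map_neg, ContinuousLinearMap.adjoint_comp,
    adjoint_sg] at h
  exact h

/-! ### the boundary operator of the product -/

/-- The boundary operator of a product. -/
def bd (deg : X → ℕ) (d : L2 X →L[ℂ] L2 X) (e : L2 Y →L[ℂ] L2 Y) :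
    L2 (X × Y) →L[ℂ] L2 (X × Y) := L d + (L (sg deg)).comp (R e)

theorem bd_apply (deg : X → ℕ) (d : L2 X →L[ℂ] L2 X) (e : L2 Y →L[ℂ] L2 Y) (F : L2 (X × Y)) :
    bd deg d e F = L d F + L (sg deg) (R e F) := rfl

theorem adjoint_bd (deg : X → ℕ) (d : L2 X →L[ℂ] L2 X) (e : L2 Y →L[ℂ] L2 Y) (F : L2 (X × Y)) :
    adjoint (bd deg d e) F = L (adjoint d) F + L (sg deg) (R (adjoint e) F) := by
  rw [bd, map_add, ContinuousLinearMap.adjoint_comp, adjoint_L, adjoint_L, adjoint_R, adjoint_sg,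
    add_apply, ContinuousLinearMap.comp_apply, LR_comm]

theorem L_neg (d : L2 X →L[ℂ] L2 X) (F : L2 (X × Y)) : L (-d) F = - L d F := by
  apply ext₁
  intro y
  rw [s₁_L]
  ext x
  have h := congrArg (fun u : L2 X => u x) (s₁_L d F y)
  simp only [s₁_apply] at h ⊢
  change - (d (s₁ F y) x) = - (L d F) (x, y)
  rw [h]

theorem L_zero (F : L2 (X × Y)) : L (0 : L2 X →L[ℂ] L2 X) F = 0 := by
  apply ext₁
  intro y
  rw [s₁_L]
  ext x
  rfl

theorem R_zero (F : L2 (X × Y)) : R (0 : L2 Y →L[ℂ] L2 Y) F = 0 := by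
  apply ext₂
  intro x
  rw [s₂_R]
  ext y
  rfl

theorem L_id (F : L2 (X × Y)) : L (ContinuousLinearMap.id ℂ (L2 X)) F = F := by
  apply ext₁
  intro y
  rw [s₁_L]
  rfl

theorem bd_bd (deg : X → ℕ) (d : L2 X →L[ℂ] L2 X) (e : L2 Y →L[ℂ] L2 Y)
    (hd : ∀ x y, d (dl x) y ≠ 0 → deg x = deg y + 1) (hdd : ∀ f, d (d f) = 0)
    (hee : ∀ f, e (e f) = 0) (F : L2 (X × Y)) : bd deg d e (bd deg d e F) = 0 := by
  have h1 : d.comp d = 0 := by
    ext1 f
    exact hdd f
  have h2 : e.comp e = 0 := by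
    ext1 f
    exact hee f
  rw [bd_apply, bd_apply, map_add, map_add, map_add, L_comp, L_comp, h1, L_zero, ← LR_comm (sg deg),
    R_comp, h2, R_zero, map_zero, map_zero, d_sg deg d hd, L_neg, ← LR_comm, L_comp]
  simp

/-- The cross terms cancel. -/
theorem cross (deg : X → ℕ) (d : L2 X →L[ℂ] L2 X) (e : L2 Y →L[ℂ] L2 Y)
    (hd : ∀ x y, d (dl x) y ≠ 0 → deg x = deg y + 1) (F : L2 (X × Y)) :
    RCLike.re ⟪L d F, L (sg deg) (R e F)⟫_ℂ +
      RCLike.re ⟪L (adjoint d) F, L (sg deg) (R (adjoint e) F)⟫_ℂ = 0 := by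
  have h1 : ⟪L d F, L (sg deg) (R e F)⟫_ℂ = ⟪F, L ((adjoint d).comp (sg deg)) (R e F)⟫_ℂ := by
    rw [← L_comp, ← adjoint_L, ContinuousLinearMap.adjoint_inner_right]
  have h2 : ⟪L (sg deg) (R (adjoint e) F), L (adjoint d) F⟫_ℂ =
      - ⟪F, L ((adjoint d).comp (sg deg)) (R e F)⟫_ℂ := by
    have e1 : L (sg deg) (R (adjoint e) F) = adjoint (R e) (adjoint (L (sg deg)) F) := by
      rw [adjoint_R, adjoint_L, adjoint_sg, LR_comm]
    rw [e1, ContinuousLinearMap.adjoint_inner_left, ContinuousLinearMap.adjoint_inner_left,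
      ← LR_comm, L_comp, sg_adj deg d hd, L_neg, inner_neg_right]
  rw [h1, ← inner_conj_symm (L (adjoint d) F), h2, RCLike.conj_re, map_neg]
  ring

theorem norm_bd (deg : X → ℕ) (d : L2 X →L[ℂ] L2 X) (e : L2 Y →L[ℂ] L2 Y)
    (hd : ∀ x y, d (dl x) y ≠ 0 → deg x = deg y + 1) (F : L2 (X × Y)) :
    ‖bd deg d e F‖ ^ 2 + ‖adjoint (bd deg d e) F‖ ^ 2 =
      (‖L d F‖ ^ 2 + ‖L (adjoint d) F‖ ^ 2) + (‖R e F‖ ^ 2 + ‖R (adjoint e) F‖ ^ 2) := by
  have h := cross deg d e hd F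
  have hn : ∀ G : L2 (X × Y), ‖L (sg deg) G‖ = ‖G‖ := by
    intro G
    have h1 := hasSum_sl (Equiv.prodComm X Y) (L (sg deg) G)
    have h2 := hasSum_sl (Equiv.prodComm X Y) G
    have h3 : (fun y => ‖sl (Equiv.prodComm X Y) (L (sg deg) G) y‖ ^ 2) =
        fun y => ‖sl (Equiv.prodComm X Y) G y‖ ^ 2 := by
      funext y
      rw [L, sl_op, norm_sg]
    rw [h3] at h1
    exact (sq_eq_sq₀ (norm_nonneg _) (norm_nonneg _)).1 (h1.unique h2)
  rw [bd_apply, adjoint_bd, norm_add_sq (𝕜 := ℂ), norm_add_sq (𝕜 := ℂ), hn, hn]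
  linarith

/-! ### harmonic chains -/

/-- The space of harmonic chains of a bounded operator. -/
def HH (d : L2 X →L[ℂ] L2 X) : Submodule ℂ (L2 X) :=
  LinearMap.ker (d : L2 X →ₗ[ℂ] L2 X) ⊓ LinearMap.ker (adjoint d : L2 X →ₗ[ℂ] L2 X)

theorem mem_HH {d : L2 X →L[ℂ] L2 X} {f : L2 X} : f ∈ HH d ↔ d f = 0 ∧ adjoint d f = 0 :=
  Iff.rfl

theorem isClosed_HH (d : L2 X →L[ℂ] L2 X) : IsClosed (HH d : Set (L2 X)) := by
  have h1 : IsClosed {f : L2 X | d f = 0} := isClosed_eq d.continuous continuous_const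
  have h2 : IsClosed {f : L2 X | adjoint d f = 0} :=
    isClosed_eq (adjoint d).continuous continuous_const
  exact h1.inter h2

instance (d : L2 X →L[ℂ] L2 X) : CompleteSpace (HH d) :=
  (isClosed_HH d).completeSpace_coe

theorem mem_HH_bd (deg : X → ℕ) (d : L2 X →L[ℂ] L2 X) (e : L2 Y →L[ℂ] L2 Y)
    (hd : ∀ x y, d (dl x) y ≠ 0 → deg x = deg y + 1) {F : L2 (X × Y)} :
    F ∈ HH (bd deg d e) ↔ (∀ y, s₁ F y ∈ HH d) ∧ ∀ x, s₂ F x ∈ HH e := by
  have hz : ∀ G : L2 X, G = 0 ↔ ‖G‖ ^ 2 = 0 := by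
    intro G
    simp
  constructor
  · rintro h
    rw [mem_HH] at h
    have hn := norm_bd deg d e hd F
    rw [h.1, h.2] at hn
    simp only [norm_zero, ne_eq, OfNat.ofNat_ne_zero, not_false_eq_true, zero_pow, add_zero] at hn
    have p1 := sq_nonneg ‖L d F‖
    have p2 := sq_nonneg ‖L (adjoint d) F‖
    have p3 := sq_nonneg ‖R e F‖
    have p4 := sq_nonneg ‖R (adjoint e) F‖
    have q1 : L d F = 0 := by
      rw [← norm_eq_zero, ← sq_eq_zero_iff]; linarith
    have q2 : L (adjoint d) F = 0 := by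
      rw [← norm_eq_zero, ← sq_eq_zero_iff]; linarith
    have q3 : R e F = 0 := by
      rw [← norm_eq_zero, ← sq_eq_zero_iff]; linarith
    have q4 : R (adjoint e) F = 0 := by
      rw [← norm_eq_zero, ← sq_eq_zero_iff]; linarith
    refine ⟨fun y => mem_HH.2 ⟨?_, ?_⟩, fun x => mem_HH.2 ⟨?_, ?_⟩⟩
    · rw [← s₁_L, q1]; rfl
    · rw [← s₁_L, q2]; rfl
    · rw [← s₂_R, q3]; rfl
    · rw [← s₂_R, q4]; rfl
  · rintro ⟨h1, h2⟩
    have q1 : L d F = 0 := by
      apply ext₁; intro y; rw [s₁_L, (mem_HH.1 (h1 y)).1]; rfl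
    have q2 : L (adjoint d) F = 0 := by
      apply ext₁; intro y; rw [s₁_L, (mem_HH.1 (h1 y)).2]; rfl
    have q3 : R e F = 0 := by
      apply ext₂; intro y; rw [s₂_R, (mem_HH.1 (h2 y)).1]; rfl
    have q4 : R (adjoint e) F = 0 := by
      apply ext₂; intro y; rw [s₂_R, (mem_HH.1 (h2 y)).2]; rfl
    rw [mem_HH, adjoint_bd, bd_apply, q1, q2, q3, q4]
    simp

/-- The projection of a basis vector of a product. -/
theorem proj_dl (deg : X → ℕ) (d : L2 X →L[ℂ] L2 X) (e : L2 Y →L[ℂ] L2 Y)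
    (hd : ∀ x y, d (dl x) y ≠ 0 → deg x = deg y + 1) (x : X) (y : Y) :
    (HH (bd deg d e)).starProjection (dl (x, y)) =
      tens ((HH d).starProjection (dl x)) ((HH e).starProjection (dl y)) := by
  set u := (HH d).starProjection (dl x) with hu
  set v := (HH e).starProjection (dl y) with hv
  have hu' : u ∈ HH d := Submodule.starProjection_apply_mem _ _
  have hv' : v ∈ HH e := Submodule.starProjection_apply_mem _ _
  apply Submodule.eq_starProjection_of_mem_of_inner_eq_zero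
  · rw [mem_HH_bd deg d e hd]
    refine ⟨fun y' => ?_, fun x' => ?_⟩
    · rw [s₁_tens]
      exact Submodule.smul_mem _ _ hu'
    · rw [s₂_tens]
      exact Submodule.smul_mem _ _ hv'
  · intro F hF
    rw [mem_HH_bd deg d e hd] at hF
    have e0 : dl (x, y) - tens u v = tens (dl x - u) (dl y) + tens u (dl y - v) := by
      rw [dl_prod]
      ext p
      change dl x p.1 * dl y p.2 - u p.1 * v p.2 =
        (dl x p.1 - u p.1) * dl y p.2 + u p.1 * (dl y p.2 - v p.2)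
      ring
    have h1 : ⟪tens (dl x - u) (dl y), F⟫_ℂ = 0 := by
      have h := inner_tens_left' (dl x - u) (dl y) F
      have : (fun y' => (starRingEnd ℂ) (dl y y') * ⟪dl x - u, s₁ F y'⟫_ℂ) = fun _ => 0 := by
        funext y'
        have hh : ⟪dl x - u, s₁ F y'⟫_ℂ = 0 :=
          Submodule.starProjection_inner_eq_zero (K := HH d) (dl x) (s₁ F y') (hF.1 y')
        rw [hh, mul_zero]
      rw [this] at h
      exact h.unique hasSum_zero
    have h2 : ⟪tens u (dl y - v), F⟫_ℂ = 0 := by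
      have h := inner_tens_left u (dl y - v) F
      have : (fun x' => (starRingEnd ℂ) (u x') * ⟪dl y - v, s₂ F x'⟫_ℂ) = fun _ => 0 := by
        funext x'
        have hh : ⟪dl y - v, s₂ F x'⟫_ℂ = 0 :=
          Submodule.starProjection_inner_eq_zero (K := HH e) (dl y) (s₂ F x') (hF.2 x')
        rw [hh, mul_zero]
      rw [this] at h
      exact h.unique hasSum_zero
    rw [e0, inner_add_left, h1, h2, add_zero]

/-- The squared length of the projection of a basis vector. -/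
theorem one_sub_infDist (d : L2 X →L[ℂ] L2 X) (x : X) :
    1 - Metric.infDist (dl x) (HH d : Set (L2 X)) ^ 2 = ‖(HH d).starProjection (dl x)‖ ^ 2 := by
  have h1 : Metric.infDist (dl x) (HH d : Set (L2 X)) =
      ‖dl x - (HH d).starProjection (dl x)‖ := by
    rw [Submodule.starProjection_minimal, Metric.infDist_eq_iInf]
    refine iInf_congr fun z => ?_
    rw [dist_eq_norm]
  have h2 := Submodule.norm_sq_eq_add_norm_sq_starProjection (dl x) (HH d)
  have h3 : (HH d)ᗮ.starProjection (dl x) = dl x - (HH d).starProjection (dl x) := by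
    rw [Submodule.starProjection_orthogonal_val]
  rw [h3, norm_dl] at h2
  rw [h1]
  linarith

end Pool.Agent.Run7.h604.HK
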